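import Pool.Agent.helper47.VD.SpecA1b

/-!
# Project VD, row AEFX: energy localisation for a fixed chart and base point
-/

set_option autoImplicit false

open scoped ContDiff Topology InnerProductSpace ComplexConjugate ENNReal
open MeasureTheory Filter Set

namespace Pool.Agent.VD

open Pool.Agent.VQ (CH)

noncomputable section

theorem AEFX_LHOc {d : ℕ} {E : Type} [NormedAddCommGroup E] [NormedSpace ℝ E] {h : V d → V d →L[ℝ] V d} {u : V d → E} (hh : ContDiff ℝ ∞ h) (hu : ContDiff ℝ 2 u) :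
    Continuous (LHO h u) := by
  unfold LHO
  refine continuous_finsetSum _ fun i _ => ?_
  have h1 : ContDiff ℝ 1 fun y => fderiv ℝ u y (h y (EuclideanSpace.single i 1)) := by
    have h2 : ContDiff ℝ 1 (fderiv ℝ u) := hu.fderiv_right (m := 1) (by norm_num)
    exact h2.clm_apply ((hh.of_le (by exact_mod_cast le_top)).clm_apply contDiff_const)
  exact (h1.continuous_fderiv one_ne_zero).clm_apply continuous_const

theorem AEFX_int {d : ℕ} {f : V d → ℂ} (hf : Continuous f) (hs : HasCompactSupport f) (R : ℝ) (ξ : V d) :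
    Integrable fun w => f w * Complex.exp (-(((R * ⟪ξ, w⟫_ℝ : ℝ) : ℂ) * Complex.I)) := by
  refine Continuous.integrable_of_hasCompactSupport ?_ hs.mul_right
  fun_prop

theorem AEFX_add {d : ℕ} {f g : V d → ℂ} (hf : Continuous f ∧ HasCompactSupport f) (hg : Continuous g ∧ HasCompactSupport g) (R : ℝ) (ξ : V d) :
    FTR R (fun w => f w + g w) ξ = FTR R f ξ + FTR R g ξ := by
  unfold FTR
  rw [← integral_add (AEFX_int hf.1 hf.2 R ξ) (AEFX_int hg.1 hg.2 R ξ)]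
  exact integral_congr_ae (Eventually.of_forall fun w => by simp only; ring)

theorem AEFX_smul {d : ℕ} (c : ℂ) (f : V d → ℂ) (R : ℝ) (ξ : V d) :
    FTR R (fun w => c * f w) ξ = c * FTR R f ξ := by
  unfold FTR
  rw [← integral_const_mul]
  exact integral_congr_ae (Eventually.of_forall fun w => by simp only; ring)

theorem AEFX_cs {d : ℕ} {f : V d → ℂ} (x : V d) (ρ : ℝ) (h : ∀ w, f w ≠ 0 → ‖w - x‖ ≤ ρ) : HasCompactSupport f := by
  refine HasCompactSupport.intro (isCompact_closedBall x ρ) fun w hw => ?_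
  by_contra h1
  exact hw (by rw [Metric.mem_closedBall, dist_eq_norm]; exact h w h1)

theorem AEFX_gk {d : ℕ} {ζ R : ℝ} {v : V d} (h : gk ζ R v ≠ 0) : ‖v‖ ≤ R ^ (-(1 / 2) + ζ) := by
  have := Set.mem_of_indicator_ne_zero h
  simpa using this

theorem AEFX_gk0 {d : ℕ} (ζ R : ℝ) (v : V d) : 0 ≤ gk ζ R v := Set.indicator_nonneg (fun _ _ => (Real.exp_pos _).le) v

theorem AEFX_en (c t : ℝ) (z : ℂ) : ‖((c : ℝ) : ℂ) * Complex.exp (((t : ℝ) : ℂ) * Complex.I) * z‖ₑ ^ 2 = ENNReal.ofReal (c ^ 2) * ‖z‖ₑ ^ 2 := by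
  have e1 : ‖Complex.exp (((t : ℝ) : ℂ) * Complex.I)‖ₑ = 1 := by
    rw [← ofReal_norm, Complex.norm_exp_ofReal_mul_I, ENNReal.ofReal_one]
  have e2 : ‖((c : ℝ) : ℂ)‖ₑ ^ 2 = ENNReal.ofReal (c ^ 2) := by
    rw [← ofReal_norm, ← ENNReal.ofReal_pow (norm_nonneg _), Complex.norm_real, Real.norm_eq_abs, sq_abs]
  rw [enorm_mul, enorm_mul, e1, mul_one, mul_pow, e2]

theorem AEFX_gi {d : ℕ} (ζ R : ℝ) (x : V d) {f : V d → ℝ} (hf : Continuous f) : Integrable (fun w => gk ζ R (w - x) ^ 2 * f w) ∧ Measurable fun w => gk ζ R (w - x) ^ 2 := by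
  have e1 : (fun w => gk ζ R (w - x) ^ 2 * f w) = (Metric.closedBall x (R ^ (-(1 / 2) + ζ))).indicator fun w => Real.exp (-(R * ‖w - x‖ ^ 2 / 2)) ^ 2 * f w := by
    funext w
    by_cases h : w ∈ Metric.closedBall x (R ^ (-(1 / 2) + ζ))
    · have h' : w - x ∈ Metric.closedBall (0 : V d) (R ^ (-(1 / 2) + ζ)) := by
        simpa [Metric.mem_closedBall, dist_eq_norm] using h
      rw [Set.indicator_of_mem h, gk, Set.indicator_of_mem h']
    · have h' : w - x ∉ Metric.closedBall (0 : V d) (R ^ (-(1 / 2) + ζ)) := by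
        simpa [Metric.mem_closedBall, dist_eq_norm] using h
      rw [Set.indicator_of_notMem h, gk, Set.indicator_of_notMem h']
      ring
  refine ⟨?_, ?_⟩
  · rw [e1, integrable_indicator_iff Metric.isClosed_closedBall.measurableSet]
    refine ContinuousOn.integrableOn_compact (isCompact_closedBall _ _) (Continuous.continuousOn ?_)
    fun_prop
  · have : Measurable (gk ζ R : V d → ℝ) := by
      unfold gk
      exact Measurable.indicator (by fun_prop) Metric.isClosed_closedBall.measurableSet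
    exact (this.comp (measurable_id.sub_const x)).pow_const 2

theorem AEFX_sq {d : ℕ} {f : V d → ℂ} (hf : Continuous f ∧ HasCompactSupport f) : Integrable fun w => ‖f w‖ ^ 2 := by
  refine Continuous.integrable_of_hasCompactSupport (hf.1.norm.pow 2) ?_
  have := hf.2.norm
  exact this.comp_left (g := fun t : ℝ => t ^ 2) (by simp)

theorem AEFX_proof (h1 : AEID_stmt) (h2 : AEGN_stmt) (h3 : AEBD_stmt) (h4 : AQFT_stmt) (h5 : AMVI_stmt) (h6 : AHLD_stmt) (h7 : ABRD_stmt) : AEFX_stmt := by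
  intro d Γ _ _ K k B r0 χ ch ζ hK hχ hch hζ hζ'
  obtain ⟨C, R1, hC, hR1, H3⟩ := h3 d Γ K k B r0 ch ζ hK hch hζ hζ'
  obtain ⟨R2, hR2, H7⟩ := h7 d ch ζ hch hζ hζ'
  obtain ⟨Cg, hCg, H6⟩ := h6 d Γ K k B r0 0
  have hd0 : (0 : ℝ) ≤ d := Nat.cast_nonneg d
  refine ⟨(2 + d + d ^ 2) * ((4 + d + d ^ 2) * C ^ 2), max R1 R2, ?_, le_max_of_le_left hR1, ?_⟩
  · have e1 : (1 : ℝ) ≤ C ^ 2 := one_le_pow₀ hC
    have e2 : (1 : ℝ) ≤ 2 + d + d ^ 2 := by nlinarith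
    have e3 : (1 : ℝ) ≤ 4 + d + d ^ 2 := by nlinarith
    exact one_le_mul_of_one_le_of_one_le e2 (one_le_mul_of_one_le_of_one_le e3 e1)
  intro R G hR hG φ E0 γ x hφ
  have hR1' : R1 ≤ R := (le_max_left _ _).trans hR
  have hR2' : R2 ≤ R := (le_max_right _ _).trans hR
  have hRo : 1 ≤ R := hR1.trans hR1'
  have hRp : 0 < R := by linarith
  obtain ⟨hb1, hb2, hb3, hb4, hb5, hb6, hb7, hb8, hb9, hb10, hb11⟩ := H7 R hR2'
  obtain ⟨hcount, hdc, hdp, -, -, hmp, -, hmi, hlap⟩ := h5 d Γ K k B G hK hG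
  obtain ⟨Q1, Q2, Q3, Q4⟩ := h4 d Γ K k B G χ ch ζ R φ γ hK hG
  obtain ⟨P1, P2, P3, P4, -⟩ := H6 G hK hG
  by_cases hx : χ x = 0
  · have : ∀ ξ : V d, QF G χ ch ζ R φ ((γ, (x, ξ)) : YS Γ d) = 0 := fun ξ => by rw [Q1, hx]; simp
    simp [this]
  have hx0 : ‖x‖ ≤ r0 := by have := hχ.supp x hx; linarith
  have hBD := fun w => H3 R G hR1' hG x w hx0
  have hu2 : ContDiff ℝ 2 (uf G φ γ) := Q3 hφ
  have huc : Continuous (uf G φ γ) := hu2.continuous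
  have hbs : ContDiff ℝ ∞ (fun y : V d => b0 ch ζ R (y - x)) := hb1.comp (contDiff_id.sub contDiff_const)
  have hbs2 : ContDiff ℝ 2 (fun y : V d => b0 ch ζ R (y - x)) := by exact_mod_cast contDiff_infty.1 hbs 2
  have hbcs : HasCompactSupport (fun y : V d => b0 ch ζ R (y - x)) := by
    refine HasCompactSupport.intro (isCompact_closedBall x (R ^ (-(1 / 2) + ζ))) fun w hw => ?_
    by_contra h1
    exact hw (by rw [Metric.mem_closedBall, dist_eq_norm]; exact hb2 _ h1)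
  have hbc : Continuous (fun y : V d => b0 ch ζ R (y - x)) := hbs.continuous
  have hsd : ∀ w, 0 < Real.sqrt (dens G w) := fun w => Real.sqrt_pos.2 (hdp w)
  have hsdc : Continuous fun w => Real.sqrt (dens G w) := Real.continuous_sqrt.comp hdc.continuous
  have hL : ∀ w, LHO (IG G) (uf G φ γ) w = ((Real.sqrt (dens G w) : ℝ) : ℂ) * lap G φ (γ • w) + VG G w * uf G φ γ w := by
    intro w
    have e1 := P1 (uf G φ γ) w hu2
    have e2 : (fun y => uf G φ γ y * (((Real.sqrt (dens G y))⁻¹ : ℝ) : ℂ)) = fun y => φ (γ • y) := by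
      funext y
      have : ((Real.sqrt (dens G y) : ℝ) : ℂ) ≠ 0 := by exact_mod_cast (hsd y).ne'
      unfold uf
      push_cast
      field_simp
    rw [e2, hlap φ γ w hφ] at e1
    have e3 : ((Real.sqrt (dens G w) : ℝ) : ℂ) ≠ 0 := by exact_mod_cast (hsd w).ne'
    have e4 : (∑ i : Fin d, fderiv ℝ (fun y => fderiv ℝ (uf G φ γ) y (IG G y (EuclideanSpace.single i 1))) w (EuclideanSpace.single i 1)) = LHO (IG G) (uf G φ γ) w := rfl
    rw [e4] at e1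
    rw [e1]
    push_cast
    field_simp
    ring
  have hLc : Continuous (LHO (IG G) (uf G φ γ)) := AEFX_LHOc P3 hu2
  have hlc : Continuous fun w => lap G φ (γ • w) := by
    have : (fun w => lap G φ (γ • w)) = fun w => (LHO (IG G) (uf G φ γ) w - VG G w * uf G φ γ w) * (((Real.sqrt (dens G w))⁻¹ : ℝ) : ℂ) := by
      funext w
      have e3 : ((Real.sqrt (dens G w) : ℝ) : ℂ) ≠ 0 := by exact_mod_cast (hsd w).ne'
      rw [hL w]
      push_cast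
      field_simp
      ring
    rw [this]
    refine (hLc.sub (P2.continuous.mul huc)).mul (Complex.continuous_ofReal.comp (hsdc.inv₀ fun w => (hsd w).ne'))
  have hsm : Continuous fun w : V d => γ • w := (hK.smooth γ).continuous
  have hψc : Continuous fun w => lap G φ (γ • w) + ((R ^ 2 * (1 + 2 * E0) : ℝ) : ℂ) * φ (γ • w) := hlc.add (continuous_const.mul (hφ.continuous.comp hsm))
  set u := uf G φ γ with hu
  set ψ : V d → ℂ := fun w => lap G φ (γ • w) + ((R ^ 2 * (1 + 2 * E0) : ℝ) : ℂ) * φ (γ • w) with hψ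
  set b : V d → ℝ := fun y => b0 ch ζ R (y - x) with hb
  set W : V d → ℂ := fun w => u w * ((b w : ℝ) : ℂ) with hW
  set A : V d → ℂ := fun w => -(((b w * Real.sqrt (dens G w) : ℝ) : ℂ) * ψ w) with hA
  set A0 : V d → ℂ := fun w => u w * ((LHO (IG G) b w : ℝ) : ℂ) - ((b w : ℝ) : ℂ) * VG G w * u w with hA0
  set A1 : Fin d → V d → ℂ := fun i w => u w * ((2 * fderiv ℝ b w (IG G w (EuclideanSpace.single i 1)) + b w * dvh (IG G) (EuclideanSpace.single i 1) w : ℝ) : ℂ) with hA1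
  set A2 : Fin d → Fin d → V d → ℂ := fun i j w => u w * ((b w * ⟪(IG G x - IG G w) (EuclideanSpace.single i 1), (EuclideanSpace.single j 1 : V d)⟫_ℝ : ℝ) : ℂ) with hA2
  have bz : ∀ w, b w ≠ 0 → ‖w - x‖ ≤ R ^ (-(1 / 2) + ζ) := fun w hw => hb2 _ hw
  have gz : ∀ w (a : ℝ) (c : ℝ), |a| ≤ c * gk ζ R (w - x) → a ≠ 0 → ‖w - x‖ ≤ R ^ (-(1 / 2) + ζ) := by
    intro w a c h h'
    refine AEFX_gk fun h0 => h' ?_
    rw [h0, mul_zero] at h
    exact abs_nonpos_iff.1 h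
  have hWc : Continuous W ∧ HasCompactSupport W := by
    refine ⟨huc.mul (Complex.continuous_ofReal.comp hbc), AEFX_cs x _ fun w hw => bz w fun h => hw ?_⟩
    simp [hW, h]
  have hAc : Continuous A ∧ HasCompactSupport A := by
    refine ⟨((Complex.continuous_ofReal.comp (hbc.mul hsdc)).mul hψc).neg, AEFX_cs x _ fun w hw => bz w fun h => hw ?_⟩
    simp [hA, h]
  have hLbc : Continuous (LHO (IG G) b) := AEFX_LHOc P3 hbs2
  have hA0c : Continuous A0 ∧ HasCompactSupport A0 := by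
    refine ⟨(huc.mul (Complex.continuous_ofReal.comp hLbc)).sub (((Complex.continuous_ofReal.comp hbc).mul P2.continuous).mul huc), AEFX_cs x (R ^ (-(1 / 2) + ζ)) fun w hw => ?_⟩
    by_cases h : LHO (IG G) b w = 0
    · exact bz w fun h' => hw (by simp [hA0, h, h'])
    · exact gz w _ _ (hBD w).1 h
  have hA1c : ∀ i, Continuous (A1 i) ∧ HasCompactSupport (A1 i) := by
    intro i
    have e1 : Continuous fun w => fderiv ℝ b w (IG G w (EuclideanSpace.single i 1)) := (hbs.continuous_fderiv (by simp)).clm_apply (P3.continuous.clm_apply continuous_const)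
    have e2 : Continuous fun w => dvh (IG G) (EuclideanSpace.single i 1) w := by
      unfold dvh
      refine continuous_finsetSum _ fun j _ => ?_
      exact continuous_const.inner (((P3.continuous_fderiv (by simp)).clm_apply continuous_const).clm_apply continuous_const)
    refine ⟨huc.mul (Complex.continuous_ofReal.comp ((continuous_const.mul e1).add (hbc.mul e2))), AEFX_cs x (R ^ (-(1 / 2) + ζ)) fun w hw => ?_⟩
    refine gz w _ _ ((hBD w).2.2.1 i) fun h => hw ?_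
    have h' : 2 * fderiv ℝ b w (IG G w (EuclideanSpace.single i 1)) + b w * dvh (IG G) (EuclideanSpace.single i 1) w = 0 := h
    simp only [hA1]
    rw [h']
    simp
  have hA2c : ∀ i j, Continuous (A2 i j) ∧ HasCompactSupport (A2 i j) := by
    intro i j
    have e1 : Continuous fun w => ⟪(IG G x - IG G w) (EuclideanSpace.single i 1), (EuclideanSpace.single j 1 : V d)⟫_ℝ :=
      ((continuous_const.sub P3.continuous).clm_apply continuous_const).inner continuous_const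
    refine ⟨huc.mul (Complex.continuous_ofReal.comp (hbc.mul e1)), AEFX_cs x _ fun w hw => bz w fun h => hw ?_⟩
    simp [hA2, h]
  set θ : V d → ℝ := fun ξ => Ep G (x, ξ) - E0 with hθ
  have hθm : Measurable θ := by
    have : Continuous θ := by
      simp only [hθ, Ep, Ham]
      exact ((((continuous_const.clm_apply continuous_id).inner continuous_id).div_const _).sub continuous_const).sub continuous_const
    exact this.measurable
  have key : ∀ ξ : V d, ((2 * R ^ 2 * θ ξ : ℝ) : ℂ) * FTR R W ξ = FTR R A ξ + FTR R A0 ξ - Complex.I * (R : ℂ) * (∑ i : Fin d, ((ξ i : ℝ) : ℂ) * FTR R (A1 i) ξ) + ((R ^ 2 : ℝ) : ℂ) * ∑ i : Fin d, ∑ j : Fin d, ((ξ i * ξ j : ℝ) : ℂ) * FTR R (A2 i j) ξ := by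
    intro ξ
    have e1 := h1 d (IG G) (IG G x) u b R ξ P3 P4 hu2 hbs2 hbcs
    have e2 : ((2 * R ^ 2 * θ ξ : ℝ) : ℂ) * FTR R W ξ = ((R ^ 2 * ⟪IG G x ξ, ξ⟫_ℝ : ℝ) : ℂ) * FTR R W ξ - ((R ^ 2 * (1 + 2 * E0) : ℝ) : ℂ) * FTR R W ξ := by
      simp only [hθ, Ep, Ham]
      push_cast
      ring
    have e3 : Continuous (fun w => LHO (IG G) u w * ((b w : ℝ) : ℂ)) ∧ HasCompactSupport (fun w => LHO (IG G) u w * ((b w : ℝ) : ℂ)) := by
      refine ⟨hLc.mul (Complex.continuous_ofReal.comp hbc), AEFX_cs x _ fun w hw => bz w fun h => hw ?_⟩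
      simp [h]
    have e4 : Continuous (fun w => u w * ((LHO (IG G) b w : ℝ) : ℂ)) ∧ HasCompactSupport (fun w => u w * ((LHO (IG G) b w : ℝ) : ℂ)) := by
      refine ⟨huc.mul (Complex.continuous_ofReal.comp hLbc), AEFX_cs x (R ^ (-(1 / 2) + ζ)) fun w hw => gz w _ _ (hBD w).1 fun h => hw ?_⟩
      have h' : LHO (IG G) b w = 0 := h
      simp [h']
    have e5 : FTR R A ξ + FTR R A0 ξ = -FTR R (fun w => LHO (IG G) u w * ((b w : ℝ) : ℂ)) ξ - ((R ^ 2 * (1 + 2 * E0) : ℝ) : ℂ) * FTR R W ξ + FTR R (fun w => u w * ((LHO (IG G) b w : ℝ) : ℂ)) ξ := by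
      rw [← AEFX_add hAc hA0c]
      have e6 : (fun w => A w + A0 w) = fun w => ((-1) * (LHO (IG G) u w * ((b w : ℝ) : ℂ)) + (-((R ^ 2 * (1 + 2 * E0) : ℝ) : ℂ)) * W w) + u w * ((LHO (IG G) b w : ℝ) : ℂ) := by
        funext w
        simp only [hA, hA0, hW, hψ, hL w]
        have e7 : u w = φ (γ • w) * ((Real.sqrt (dens G w) : ℝ) : ℂ) := rfl
        rw [e7]
        push_cast
        ring
      rw [e6]
      have f1 : Continuous (fun w => (-1 : ℂ) * (LHO (IG G) u w * ((b w : ℝ) : ℂ))) ∧ HasCompactSupport (fun w => (-1 : ℂ) * (LHO (IG G) u w * ((b w : ℝ) : ℂ))) := ⟨continuous_const.mul e3.1, e3.2.mul_left⟩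
      have f2 : Continuous (fun w => (-((R ^ 2 * (1 + 2 * E0) : ℝ) : ℂ)) * W w) ∧ HasCompactSupport (fun w => (-((R ^ 2 * (1 + 2 * E0) : ℝ) : ℂ)) * W w) := ⟨continuous_const.mul hWc.1, hWc.2.mul_left⟩
      have f3 : Continuous (fun w => (-1 : ℂ) * (LHO (IG G) u w * ((b w : ℝ) : ℂ)) + (-((R ^ 2 * (1 + 2 * E0) : ℝ) : ℂ)) * W w) ∧ HasCompactSupport (fun w => (-1 : ℂ) * (LHO (IG G) u w * ((b w : ℝ) : ℂ)) + (-((R ^ 2 * (1 + 2 * E0) : ℝ) : ℂ)) * W w) :=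
        ⟨f1.1.add f2.1, f1.2.add f2.2⟩
      rw [AEFX_add f3 e4, AEFX_add f1 f2, AEFX_smul, AEFX_smul]
      ring
    rw [e2, e5]
    have e8 : FTR R W ξ = FTR R (fun w => u w * ((b w : ℝ) : ℂ)) ξ := rfl
    rw [e8, e1]
    ring
  have HG := h2 d R θ W A A0 A1 A2 hRo hθm hWc hAc hA0c hA1c hA2c key
  have hdn : ∀ w, 0 ≤ dens G w := fun w => (hdp w).le
  have hφc : Continuous fun w => φ (γ • w) := hφ.continuous.comp hsm
  have hJ1 := (AEFX_gi ζ R x (f := fun w => dens G w * ‖ψ w‖ ^ 2) (hdc.continuous.mul (hψc.norm.pow 2))).1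
  have hJ2 := (AEFX_gi ζ R x (f := fun w => dens G w * ‖φ (γ • w)‖ ^ 2) (hdc.continuous.mul (hφc.norm.pow 2))).1
  have hgm := (AEFX_gi ζ R x (f := fun w => dens G w * ‖ψ w‖ ^ 2) (hdc.continuous.mul (hψc.norm.pow 2))).2
  set I1 := ∫ w, gk ζ R (w - x) ^ 2 * (dens G w * ‖ψ w‖ ^ 2) with hI1
  set I2 := ∫ w, gk ζ R (w - x) ^ 2 * (dens G w * ‖φ (γ • w)‖ ^ 2) with hI2
  have hn1 : 0 ≤ I1 := integral_nonneg fun w => mul_nonneg (sq_nonneg _) (mul_nonneg (hdn w) (sq_nonneg _))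
  have hn2 : 0 ≤ I2 := integral_nonneg fun w => mul_nonneg (sq_nonneg _) (mul_nonneg (hdn w) (sq_nonneg _))
  have hgn : ∀ w : V d, 0 ≤ gk ζ R (w - x) := fun w => AEFX_gk0 ζ R _
  have hun : ∀ w, ‖u w‖ ^ 2 = ‖φ (γ • w)‖ ^ 2 * dens G w := Q4
  have hC0 : 0 ≤ C := by linarith
  -- pointwise bound with a real factor
  have gen : ∀ (g : V d → ℂ) (c : ℝ), 0 ≤ c → (Continuous g ∧ HasCompactSupport g) → (∀ w, ‖g w‖ ≤ c * gk ζ R (w - x) * ‖u w‖) → ∫ w, ‖g w‖ ^ 2 ≤ c ^ 2 * I2 := by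
    intro g c hc hg hgw
    rw [hI2, ← integral_const_mul]
    refine integral_mono (AEFX_sq hg) (hJ2.const_mul _) fun w => ?_
    have e1 := pow_le_pow_left₀ (norm_nonneg _) (hgw w) 2
    calc ‖g w‖ ^ 2 ≤ (c * gk ζ R (w - x) * ‖u w‖) ^ 2 := e1
      _ = c ^ 2 * (gk ζ R (w - x) ^ 2 * (dens G w * ‖φ (γ • w)‖ ^ 2)) := by rw [mul_pow, hun w]; ring
  have bA : ∫ w, ‖A w‖ ^ 2 ≤ I1 := by
    rw [hI1]
    refine integral_mono (AEFX_sq hAc) hJ1 fun w => ?_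
    have e1 : ‖A w‖ = |b w| * Real.sqrt (dens G w) * ‖ψ w‖ := by
      simp only [hA]
      rw [norm_neg, norm_mul, Complex.norm_real, Real.norm_eq_abs, abs_mul, abs_of_pos (hsd w)]
    have e2 : |b w| ≤ gk ζ R (w - x) := by
      have f1 := hb3 (w - x)
      rw [abs_of_nonneg f1.1]
      by_cases hz : b w = 0
      · rw [show b0 ch ζ R (w - x) = 0 from hz]; exact hgn w
      · have f2 : w - x ∈ Metric.closedBall (0 : V d) (R ^ (-(1 / 2) + ζ)) := by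
          simpa using bz w hz
        rw [gk, Set.indicator_of_mem f2]
        exact f1.2
    calc ‖A w‖ ^ 2 = |b w| ^ 2 * (dens G w * ‖ψ w‖ ^ 2) := by
          rw [e1, mul_pow, mul_pow, Real.sq_sqrt (hdn w)]; ring
      _ ≤ gk ζ R (w - x) ^ 2 * (dens G w * ‖ψ w‖ ^ 2) :=
          mul_le_mul_of_nonneg_right (pow_le_pow_left₀ (abs_nonneg _) e2 2) (mul_nonneg (hdn w) (sq_nonneg _))
  have r1 : 1 ≤ R ^ (1 + 3 * ζ) := Real.one_le_rpow hRo (by linarith)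
  have bA0 : ∫ w, ‖A0 w‖ ^ 2 ≤ (2 * C * R ^ (1 + 3 * ζ)) ^ 2 * I2 := by
    refine gen A0 _ (by positivity) hA0c fun w => ?_
    have e1 : ‖A0 w‖ ≤ |LHO (IG G) b w| * ‖u w‖ + |b w| * ‖VG G w‖ * ‖u w‖ := by
      simp only [hA0]
      refine (norm_sub_le _ _).trans (le_of_eq ?_)
      rw [norm_mul, norm_mul, norm_mul, Complex.norm_real, Complex.norm_real, Real.norm_eq_abs, Real.norm_eq_abs]
      ring
    have e2 := (hBD w).1
    have e3 := (hBD w).2.1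
    have e4 : C * gk ζ R (w - x) ≤ C * R ^ (1 + 3 * ζ) * gk ζ R (w - x) := by
      have := mul_le_mul_of_nonneg_left r1 (mul_nonneg hC0 (hgn w))
      nlinarith
    calc ‖A0 w‖ ≤ |LHO (IG G) b w| * ‖u w‖ + |b w| * ‖VG G w‖ * ‖u w‖ := e1
      _ ≤ (C * R ^ (1 + 3 * ζ) * gk ζ R (w - x)) * ‖u w‖ + (C * R ^ (1 + 3 * ζ) * gk ζ R (w - x)) * ‖u w‖ :=
          add_le_add (mul_le_mul_of_nonneg_right e2 (norm_nonneg _)) (mul_le_mul_of_nonneg_right (e3.trans e4) (norm_nonneg _))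
      _ = 2 * C * R ^ (1 + 3 * ζ) * gk ζ R (w - x) * ‖u w‖ := by ring
  have bA1 : ∀ i, ∫ w, ‖A1 i w‖ ^ 2 ≤ (C * R ^ (1 / 2 + 2 * ζ)) ^ 2 * I2 := by
    intro i
    refine gen (A1 i) _ (by positivity) (hA1c i) fun w => ?_
    have e2 := (hBD w).2.2.1 i
    have e1 : ‖A1 i w‖ = ‖u w‖ * |2 * (fderiv ℝ b w) (IG G w (EuclideanSpace.single i 1)) + b w * dvh (IG G) (EuclideanSpace.single i 1) w| := by
      simp only [hA1]
      rw [norm_mul, Complex.norm_real, Real.norm_eq_abs]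
    rw [e1, mul_comm]
    exact mul_le_mul_of_nonneg_right e2 (norm_nonneg _)
  have bA2 : ∀ i j, ∫ w, ‖A2 i j w‖ ^ 2 ≤ (C * R ^ (-(1 / 2) + ζ)) ^ 2 * I2 := by
    intro i j
    refine gen (A2 i j) _ (by positivity) (hA2c i j) fun w => ?_
    have e2 := (hBD w).2.2.2 i j
    have e1 : ‖A2 i j w‖ = ‖u w‖ * |b w * ⟪(IG G x - IG G w) (EuclideanSpace.single i 1), (EuclideanSpace.single j 1 : V d)⟫_ℝ| := by
      simp only [hA2]
      rw [norm_mul, Complex.norm_real, Real.norm_eq_abs]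
    rw [e1, mul_comm]
    exact mul_le_mul_of_nonneg_right e2 (norm_nonneg _)
  -- powers of R
  have hp : ∀ a b : ℝ, R ^ a * R ^ b = R ^ (a + b) := fun a b => (Real.rpow_add hRp a b).symm
  have hp2 : ∀ a : ℝ, (R ^ a) ^ 2 = R ^ (2 * a) := fun a => by rw [← Real.rpow_natCast, ← Real.rpow_mul hRp.le]; congr 1; push_cast; ring
  have hmono : ∀ a b : ℝ, a ≤ b → R ^ a ≤ R ^ b := fun a b h => Real.rpow_le_rpow_of_exponent_le hRo h
  set ρ := R ^ (-1 + 4 * ζ) with hρ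
  have hρ0 : 0 < ρ := Real.rpow_pos_of_pos hRp _
  have p0 : R ^ (-4 : ℝ) * (R ^ (1 + 3 * ζ)) ^ 2 ≤ ρ := by
    rw [hp2, hp, hρ]; exact hmono _ _ (by linarith)
  have p1 : R ^ (-2 : ℝ) * (R ^ (1 / 2 + 2 * ζ)) ^ 2 ≤ ρ := by
    rw [hp2, hp, hρ]; exact hmono _ _ (by linarith)
  have p2 : (R ^ (-(1 / 2) + ζ)) ^ 2 ≤ ρ := by
    rw [hp2, hρ]; exact hmono _ _ (by linarith)
  have h4p : 0 < R ^ (-4 : ℝ) := Real.rpow_pos_of_pos hRp _
  have h2p : 0 < R ^ (-2 : ℝ) := Real.rpow_pos_of_pos hRp _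
  have hCC : 1 ≤ C ^ 2 := one_le_pow₀ hC
  set X := R ^ (-4 : ℝ) * I1 + ρ * I2 with hX
  have hX0 : 0 ≤ X := by positivity
  have hS : R ^ (-4 : ℝ) * (∫ w, ‖A w‖ ^ 2) + R ^ (-4 : ℝ) * (∫ w, ‖A0 w‖ ^ 2) + R ^ (-2 : ℝ) * (∑ i, ∫ w, ‖A1 i w‖ ^ 2) + ∑ i, ∑ j, ∫ w, ‖A2 i j w‖ ^ 2 ≤ (4 + d + d ^ 2) * C ^ 2 * X := by
    have s1 : R ^ (-4 : ℝ) * (∫ w, ‖A w‖ ^ 2) ≤ C ^ 2 * (R ^ (-4 : ℝ) * I1) := by
      have := mul_le_mul_of_nonneg_left bA h4p.le
      have h' : 0 ≤ R ^ (-4 : ℝ) * I1 := by positivity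
      nlinarith
    have s2 : R ^ (-4 : ℝ) * (∫ w, ‖A0 w‖ ^ 2) ≤ 4 * C ^ 2 * (ρ * I2) := by
      have := mul_le_mul_of_nonneg_left bA0 h4p.le
      calc R ^ (-4 : ℝ) * (∫ w, ‖A0 w‖ ^ 2) ≤ R ^ (-4 : ℝ) * ((2 * C * R ^ (1 + 3 * ζ)) ^ 2 * I2) := this
        _ = (R ^ (-4 : ℝ) * (R ^ (1 + 3 * ζ)) ^ 2) * (4 * C ^ 2 * I2) := by ring
        _ ≤ ρ * (4 * C ^ 2 * I2) := mul_le_mul_of_nonneg_right p0 (by positivity)
        _ = 4 * C ^ 2 * (ρ * I2) := by ring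
    have s3 : R ^ (-2 : ℝ) * (∑ i, ∫ w, ‖A1 i w‖ ^ 2) ≤ d * C ^ 2 * (ρ * I2) := by
      have t1 : (∑ i, ∫ w, ‖A1 i w‖ ^ 2) ≤ ∑ _i : Fin d, (C * R ^ (1 / 2 + 2 * ζ)) ^ 2 * I2 := Finset.sum_le_sum fun i _ => bA1 i
      rw [Finset.sum_const, Finset.card_univ, Fintype.card_fin, nsmul_eq_mul] at t1
      calc R ^ (-2 : ℝ) * (∑ i, ∫ w, ‖A1 i w‖ ^ 2) ≤ R ^ (-2 : ℝ) * (d * ((C * R ^ (1 / 2 + 2 * ζ)) ^ 2 * I2)) := mul_le_mul_of_nonneg_left t1 h2p.le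
        _ = (R ^ (-2 : ℝ) * (R ^ (1 / 2 + 2 * ζ)) ^ 2) * (d * C ^ 2 * I2) := by ring
        _ ≤ ρ * (d * C ^ 2 * I2) := mul_le_mul_of_nonneg_right p1 (by positivity)
        _ = d * C ^ 2 * (ρ * I2) := by ring
    have s4 : (∑ i, ∑ j, ∫ w, ‖A2 i j w‖ ^ 2) ≤ d ^ 2 * C ^ 2 * (ρ * I2) := by
      have t1 : (∑ i, ∑ j, ∫ w, ‖A2 i j w‖ ^ 2) ≤ ∑ _i : Fin d, ∑ _j : Fin d, (C * R ^ (-(1 / 2) + ζ)) ^ 2 * I2 := Finset.sum_le_sum fun i _ => Finset.sum_le_sum fun j _ => bA2 i j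
      simp only [Finset.sum_const, Finset.card_univ, Fintype.card_fin, nsmul_eq_mul] at t1
      calc (∑ i, ∑ j, ∫ w, ‖A2 i j w‖ ^ 2) ≤ d * (d * ((C * R ^ (-(1 / 2) + ζ)) ^ 2 * I2)) := t1
        _ = (R ^ (-(1 / 2) + ζ)) ^ 2 * (d ^ 2 * C ^ 2 * I2) := by ring
        _ ≤ ρ * (d ^ 2 * C ^ 2 * I2) := mul_le_mul_of_nonneg_right p2 (by positivity)
        _ = d ^ 2 * C ^ 2 * (ρ * I2) := by ring
    have s5 : 0 ≤ (3 + d + d ^ 2) * C ^ 2 * (R ^ (-4 : ℝ) * I1) := by positivity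
    calc _ ≤ C ^ 2 * (R ^ (-4 : ℝ) * I1) + 4 * C ^ 2 * (ρ * I2) + d * C ^ 2 * (ρ * I2) + d ^ 2 * C ^ 2 * (ρ * I2) := add_le_add (add_le_add (add_le_add s1 s2) s3) s4
      _ ≤ C ^ 2 * (R ^ (-4 : ℝ) * I1) + 4 * C ^ 2 * (ρ * I2) + d * C ^ 2 * (ρ * I2) + d ^ 2 * C ^ 2 * (ρ * I2) + (3 + d + d ^ 2) * C ^ 2 * (R ^ (-4 : ℝ) * I1) := by linarith
      _ = (4 + d + d ^ 2) * C ^ 2 * X := by rw [hX]; ring
  -- the left side
  have hl : ∫⁻ ξ : V d, ENNReal.ofReal ((Ep G (x, ξ) - E0) ^ 2 / (1 + ‖ξ‖ ^ 2) ^ 2) * ‖QF G χ ch ζ R φ ((γ, (x, ξ)) : YS Γ d)‖ₑ ^ 2 =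
      ENNReal.ofReal ((cR d ch ζ R * χ x) ^ 2) * ∫⁻ ξ : V d, ENNReal.ofReal (θ ξ ^ 2 / (1 + ‖ξ‖ ^ 2) ^ 2) * ‖FTR R W ξ‖ₑ ^ 2 := by
    rw [← lintegral_const_mul' _ _ ENNReal.ofReal_ne_top]
    refine lintegral_congr fun ξ => ?_
    rw [Q1 x ξ, AEFX_en]
    simp only [hθ, hW, hb]
    ring
  -- the right side
  have hr : ∫⁻ w, ENNReal.ofReal (gk ζ R (w - x) ^ 2) * (ENNReal.ofReal (R ^ (-4 : ℝ)) * ‖lap G φ (γ • w) + ((R ^ 2 * (1 + 2 * E0) : ℝ) : ℂ) * φ (γ • w)‖ₑ ^ 2 + ENNReal.ofReal ρ * ‖φ (γ • w)‖ₑ ^ 2) ∂mv G =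
      ENNReal.ofReal X := by
    have m1 : Measurable fun w => ENNReal.ofReal (gk ζ R (w - x) ^ 2) * (ENNReal.ofReal (R ^ (-4 : ℝ)) * ‖ψ w‖ₑ ^ 2 + ENNReal.ofReal ρ * ‖φ (γ • w)‖ₑ ^ 2) := by
      refine (ENNReal.measurable_ofReal.comp hgm).mul ((measurable_const.mul (hψc.measurable.enorm.pow_const 2)).add (measurable_const.mul (hφc.measurable.enorm.pow_const 2)))
    unfold mv
    have mf : Measurable fun x : V d => ENNReal.ofReal (dens G x) := ENNReal.measurable_ofReal.comp hdc.continuous.measurable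
    rw [lintegral_withDensity_eq_lintegral_mul _ mf m1]
    have e1 : X = ∫ w, (R ^ (-4 : ℝ) * (gk ζ R (w - x) ^ 2 * (dens G w * ‖ψ w‖ ^ 2)) + ρ * (gk ζ R (w - x) ^ 2 * (dens G w * ‖φ (γ • w)‖ ^ 2))) := by
      rw [integral_add (hJ1.const_mul _) (hJ2.const_mul _), integral_const_mul, integral_const_mul]
    have e2 : Integrable fun w => (R ^ (-4 : ℝ) * (gk ζ R (w - x) ^ 2 * (dens G w * ‖ψ w‖ ^ 2)) + ρ * (gk ζ R (w - x) ^ 2 * (dens G w * ‖φ (γ • w)‖ ^ 2))) := (hJ1.const_mul _).add (hJ2.const_mul _)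
    have e3 : ∀ w : V d, 0 ≤ (R ^ (-4 : ℝ) * (gk ζ R (w - x) ^ 2 * (dens G w * ‖ψ w‖ ^ 2)) + ρ * (gk ζ R (w - x) ^ 2 * (dens G w * ‖φ (γ • w)‖ ^ 2))) := fun w => by
      have := hdn w
      positivity
    rw [e1, ofReal_integral_eq_lintegral_ofReal e2 (Eventually.of_forall e3)]
    refine lintegral_congr fun w => ?_
    have f1 : ∀ z : ℂ, ‖z‖ₑ ^ 2 = ENNReal.ofReal (‖z‖ ^ 2) := fun z => by rw [← ofReal_norm, ENNReal.ofReal_pow (norm_nonneg _)]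
    have := hdn w
    simp only [Pi.mul_apply, Function.comp]
    rw [f1, f1, ← ENNReal.ofReal_mul (by positivity), ← ENNReal.ofReal_mul (by positivity), ← ENNReal.ofReal_add (by positivity) (by positivity), ← ENNReal.ofReal_mul (by positivity), ← ENNReal.ofReal_mul (by positivity)]
    congr 1
    ring
  rw [hl, hr]
  refine (mul_le_mul_right HG _).trans ?_
  rw [← ENNReal.ofReal_mul (sq_nonneg _), ← ENNReal.ofReal_mul (by positivity)]
  refine ENNReal.ofReal_le_ofReal ?_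
  have q1 : cR d ch ζ R ^ 2 * (2 * Real.pi / R) ^ d = (bR d ch ζ R)⁻¹ := by
    have e1 : (R / (2 * Real.pi)) ^ d * (2 * Real.pi / R) ^ d = 1 := by
      rw [← mul_pow]
      have : R / (2 * Real.pi) * (2 * Real.pi / R) = 1 := by
        have := Real.pi_pos
        field_simp
      rw [this, one_pow]
    refine eq_inv_of_mul_eq_one_left ?_
    calc cR d ch ζ R ^ 2 * (2 * Real.pi / R) ^ d * bR d ch ζ R = (cR d ch ζ R ^ 2 * bR d ch ζ R) * (2 * Real.pi / R) ^ d := by ring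
      _ = 1 := by rw [hb8, e1]
  calc (cR d ch ζ R * χ x) ^ 2 * ((2 * Real.pi / R) ^ d * ((2 + d + d ^ 2 : ℝ) * (R ^ (-4 : ℝ) * (∫ w, ‖A w‖ ^ 2) + R ^ (-4 : ℝ) * (∫ w, ‖A0 w‖ ^ 2) + R ^ (-2 : ℝ) * (∑ i, ∫ w, ‖A1 i w‖ ^ 2) + ∑ i, ∑ j, ∫ w, ‖A2 i j w‖ ^ 2)))
      ≤ (cR d ch ζ R * χ x) ^ 2 * ((2 * Real.pi / R) ^ d * ((2 + d + d ^ 2 : ℝ) * ((4 + d + d ^ 2) * C ^ 2 * X))) := by
        have := Real.pi_pos
        gcongr
    _ = (cR d ch ζ R ^ 2 * (2 * Real.pi / R) ^ d) * (χ x ^ 2 * ((2 + d + d ^ 2) * ((4 + d + d ^ 2) * C ^ 2)) * X) := by ring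
    _ = (2 + d + d ^ 2) * ((4 + d + d ^ 2) * C ^ 2) * (χ x ^ 2 * (bR d ch ζ R)⁻¹) * X := by rw [q1]; ring

end

end Pool.Agent.VD
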