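import Pool.Agent.helper80.VD.SpecF
import Mathlib.Analysis.ODE.ExistUnique

/-!
# Project VD (MP_07c750_an), row FCP: a complete smooth field has a smooth flow
-/

set_option autoImplicit false

open scoped ContDiff Topology InnerProductSpace
open MeasureTheory Filter Set

namespace Pool.Agent.VD

noncomputable section

section
variable {F : Type} [NormedAddCommGroup F] [NormedSpace ℝ F] [FiniteDimensional ℝ F]

/-- uniqueness on open intervals -/
theorem FCP_uni (f : F → F) (hf : ContDiff ℝ ∞ f) (T : ℝ) (c1 c2 : ℝ → F) (h1 : ∀ t, |t| < T → HasDerivAt c1 (f (c1 t)) t)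
    (h2 : ∀ t, |t| < T → HasDerivAt c2 (f (c2 t)) t) (h0 : c1 0 = c2 0) (t : ℝ) (ht : |t| < T) : c1 t = c2 t := by
  obtain ⟨T1, hT1, hT2⟩ := exists_between ht
  have hT0 : 0 < T1 := lt_of_le_of_lt (abs_nonneg t) hT1
  have hlt : ∀ s ∈ Icc (-T1) T1, |s| < T := fun s hs => lt_of_le_of_lt (abs_le.mpr hs) hT2
  have k1 : ContinuousOn c1 (Icc (-T1) T1) := fun s hs => (h1 s (hlt s hs)).continuousAt.continuousWithinAt
  have k2 : ContinuousOn c2 (Icc (-T1) T1) := fun s hs => (h2 s (hlt s hs)).continuousAt.continuousWithinAt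
  obtain ⟨R1, hR1⟩ := (isCompact_Icc.image_of_continuousOn k1).isBounded.subset_closedBall (0 : F)
  obtain ⟨R2, hR2⟩ := (isCompact_Icc.image_of_continuousOn k2).isBounded.subset_closedBall (0 : F)
  set R := max R1 R2 with hR
  have hfc : Continuous (fderiv ℝ f) := hf.continuous_fderiv (by simp)
  obtain ⟨C, hC⟩ := ((isCompact_closedBall (0 : F) R).image (hfc.nnnorm)).isBounded.subset_closedBall 0
  have hLip : LipschitzOnWith (Real.toNNReal C) f (Metric.closedBall (0 : F) R) := by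
    refine Convex.lipschitzOnWith_of_nnnorm_fderiv_le (𝕜 := ℝ) (fun x _ => hf.differentiable (by simp) x) (fun x hx => ?_) (convex_closedBall _ _)
    have := hC ⟨x, hx, rfl⟩
    rw [Metric.mem_closedBall, NNReal.dist_eq] at this
    have h3 : ((‖fderiv ℝ f x‖₊ : NNReal) : ℝ) ≤ C := by
      have h4 : |((‖fderiv ℝ f x‖₊ : NNReal) : ℝ) - ((0 : NNReal) : ℝ)| ≤ C := this
      rw [NNReal.coe_zero, sub_zero, abs_of_nonneg (NNReal.coe_nonneg _)] at h4
      exact h4
    exact NNReal.le_toNNReal_of_coe_le h3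
  have hm : t ∈ Ioo (-T1) T1 := abs_lt.mp hT1
  have hsub : ∀ s ∈ Ioo (-T1) T1, s ∈ Icc (-T1) T1 := fun s hs => ⟨hs.1.le, hs.2.le⟩
  exact ODE_solution_unique_of_mem_Ioo (v := fun _ => f) (s := fun _ => Metric.closedBall (0 : F) R) (K := Real.toNNReal C) (a := -T1) (b := T1) (t₀ := 0)
    (fun s _ => hLip) ⟨by linarith, hT0⟩
    (fun s hs => ⟨h1 s (hlt s (hsub s hs)), Metric.closedBall_subset_closedBall (le_max_left _ _) (hR1 ⟨s, hsub s hs, rfl⟩)⟩)
    (fun s hs => ⟨h2 s (hlt s (hsub s hs)), Metric.closedBall_subset_closedBall (le_max_right _ _) (hR2 ⟨s, hsub s hs, rfl⟩)⟩) h0 hm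

/-- uniqueness of complete curves -/
theorem FCP_uni' (f : F → F) (hf : ContDiff ℝ ∞ f) (c1 c2 : ℝ → F) (h1 : ∀ t, HasDerivAt c1 (f (c1 t)) t)
    (h2 : ∀ t, HasDerivAt c2 (f (c2 t)) t) (h0 : c1 0 = c2 0) (t : ℝ) : c1 t = c2 t :=
  FCP_uni f hf (|t| + 1) c1 c2 (fun s _ => h1 s) (fun s _ => h2 s) h0 t (by linarith)

end

theorem FCP_proof (hFSM : FSM_stmt) (hFC1 : FC1_stmt) : FCP_stmt := by
  intro F _ _ _ f hf hex
  choose Φ' hΦ0 hΦd using hex
  obtain ⟨Φ, hΦ⟩ : ∃ Φ : ℝ → F → F, ∀ t x, Φ t x = Φ' x t := ⟨fun t x => Φ' x t, fun _ _ => rfl⟩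
  have hzero : ∀ x, Φ 0 x = x := fun x => by rw [hΦ, hΦ0]
  have hfun : ∀ x, (fun s => Φ s x) = Φ' x := fun x => funext fun s => hΦ s x
  have hder : ∀ t x, HasDerivAt (fun s => Φ s x) (f (Φ t x)) t := by
    intro t x
    rw [hfun, hΦ]
    exact hΦd x t
  have hadd : ∀ s t x, Φ (s + t) x = Φ s (Φ t x) := by
    intro s t x
    refine FCP_uni' f hf (fun s => Φ (s + t) x) (fun s => Φ s (Φ t x)) (fun r => ?_) (fun r => hder r _) ?_ s
    · have h1 := hder (r + t) x
      exact h1.comp_add_const r t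
    · simp only [zero_add, hzero]
  have hcont : ∀ x, Continuous fun s => Φ s x := fun x => continuous_iff_continuousAt.mpr fun t => (hder t x).continuousAt
  have hsm : ContDiff ℝ ∞ (fun q : ℝ × F => Φ q.1 q.2) := by
    rw [contDiff_iff_contDiffAt]
    rintro ⟨t0, x0⟩
    set T : ℝ := |t0| + 1 with hT
    have hT0 : 0 < T := by positivity
    -- the orbit of x0 is bounded
    obtain ⟨R0, hR0⟩ := ((isCompact_Icc (a := -T) (b := T)).image (hcont x0)).isBounded.subset_closedBall (0 : F)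
    have hR0' : ∀ s, |s| ≤ T → ‖Φ s x0‖ ≤ R0 := fun s hs => by
      have := hR0 ⟨s, abs_le.mp hs, rfl⟩
      rwa [mem_closedBall_zero_iff] at this
    have hR00 : 0 ≤ R0 := (norm_nonneg _).trans (hR0' 0 (by rw [abs_zero]; exact hT0.le))
    -- the cut off
    let φ : ContDiffBump (0 : F) := ⟨R0 + 1, R0 + 2, by linarith, by linarith⟩
    have hφ1 : ∀ x : F, ‖x‖ ≤ R0 + 1 → φ x = 1 := fun x hx => φ.one_of_mem_closedBall (by rwa [mem_closedBall_zero_iff])
    have hg : ContDiff ℝ ∞ (fun x => φ x • f x) := φ.contDiff.smul hf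
    have hgc : HasCompactSupport (fun x => φ x • f x) := φ.hasCompactSupport.smul_right
    obtain ⟨Ψ, hΨ, hΨs⟩ := hFSM F (fun x => φ x • f x) hg hgc
    -- Ψ s x0 = Φ s x0
    have e0 : ∀ s, |s| < T → Ψ s x0 = Φ s x0 := by
      intro s hs
      refine FCP_uni (fun x => φ x • f x) hg T (fun s => Ψ s x0) (fun s => Φ s x0) (fun r _ => hΨ.ode x0 r) (fun r hr => ?_) ?_ s hs
      · have h1 := hder r x0
        have h2 : φ (Φ r x0) • f (Φ r x0) = f (Φ r x0) := by
          rw [hφ1 _ (by linarith [hR0' r hr.le]), one_smul]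
        show HasDerivAt (fun s => Φ s x0) (φ (Φ r x0) • f (Φ r x0)) r
        rw [h2]
        exact h1
      · rw [hΨ.zero, hzero]
    -- the tube
    have hopen : IsOpen {q : ℝ × F | ‖Ψ q.1 q.2‖ < R0 + 1} := isOpen_lt hΨs.continuous.norm continuous_const
    have e0' : ∀ s, |s| ≤ T → ‖Ψ s x0‖ < R0 + 1 := by
      have hcl : IsClosed {s : ℝ | ‖Ψ s x0‖ ≤ R0} := isClosed_le (hΨs.continuous.comp (by fun_prop : Continuous fun s : ℝ => (s, x0))).norm continuous_const
      have hsub : Icc (-T) T ⊆ {s : ℝ | ‖Ψ s x0‖ ≤ R0} := by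
        have h3 : closure (Ioo (-T) T) = Icc (-T) T := closure_Ioo (by linarith : -T ≠ T)
        rw [← h3]
        refine closure_minimal (fun s hs => ?_) hcl
        show ‖Ψ s x0‖ ≤ R0
        rw [e0 s (abs_lt.mpr hs)]
        exact hR0' s (abs_lt.mpr hs).le
      intro s hs
      have h4 : ‖Ψ s x0‖ ≤ R0 := hsub (abs_le.mp hs)
      linarith
    obtain ⟨u, v, hu, hv, hsu, htv, huv⟩ := generalized_tube_lemma (isCompact_Icc (a := -T) (b := T)) (isCompact_singleton (x := x0)) hopen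
      (fun q hq => by
        obtain ⟨hq1, hq2⟩ := hq
        show ‖Ψ q.1 q.2‖ < R0 + 1
        rw [mem_singleton_iff.mp hq2]
        exact e0' q.1 (abs_le.mpr hq1))
    have hx0 : x0 ∈ v := htv (mem_singleton x0)
    -- agreement
    have e1 : ∀ x ∈ v, ∀ s, |s| < T → Φ s x = Ψ s x := by
      intro x hx s hs
      refine FCP_uni f hf T (fun s => Φ s x) (fun s => Ψ s x) (fun r _ => hder r x) (fun r hr => ?_) ?_ s hs
      · have h1 := hΨ.ode x r
        have h5 : ‖Ψ r x‖ < R0 + 1 := huv (mk_mem_prod (hsu (abs_le.mp hr.le)) hx)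
        have h2 : φ (Ψ r x) • f (Ψ r x) = f (Ψ r x) := by
          rw [hφ1 _ h5.le, one_smul]
        show HasDerivAt (fun s => Ψ s x) (f (Ψ r x)) r
        rw [← h2]
        exact h1
      · rw [hΨ.zero, hzero]
    have hev : (fun q : ℝ × F => Φ q.1 q.2) =ᶠ[𝓝 (t0, x0)] fun q : ℝ × F => Ψ q.1 q.2 := by
      have h6 : Ioo (-T) T ×ˢ v ∈ 𝓝 (t0, x0) := by
        refine prod_mem_nhds (Ioo_mem_nhds ?_ ?_) (hv.mem_nhds hx0)
        · have := neg_abs_le t0
          linarith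
        · have := le_abs_self t0
          linarith
      filter_upwards [h6] with q hq
      exact e1 q.2 hq.2 q.1 (abs_lt.mpr hq.1)
    exact (hΨs.contDiffAt).congr_of_eventuallyEq hev
  obtain ⟨h1, h2⟩ := hFC1 F f Φ hf hsm hzero hadd hder
  exact ⟨Φ, h1, hsm, h2⟩

end

end Pool.Agent.VD
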