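import Pool.Agent.helper33.VD.ABRE
import Pool.Agent.helper96.VD.ABRD
import Pool.Agent.helper27.VD.ABRG
import Pool.Agent.helper48.VD.APLD
import Pool.Agent.helper27.VD.AGRW
import Pool.Agent.helper27.VD.AEXL
import Pool.Agent.helper49.VD.AEID
import Pool.Agent.helper34.VD.AEGN
import Pool.Agent.helper26.VD.AMYS
import Pool.Agent.helper14.VD.AUNG
import Pool.Agent.helper34.VD.AUNK
import Pool.Agent.helper16.VD.AUNF
import Pool.Agent.helper5.VD.ANCH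
import Pool.Agent.helper34.VD.AFHB
import Pool.Agent.helper26.VD.AQSN
import Pool.Agent.helper48.VD.AQSB
import Pool.Agent.helper85.VD.AQSC
import Pool.Agent.helper40.VD.AQSE
import Pool.Agent.helper74.VD.AQSD
import Pool.Agent.helper57.VD.AQFT
import Pool.Agent.helper57.VD.AISP
import Pool.Agent.helper14.VD.AWSM
import Pool.Agent.helper57.VD.AISD
import Pool.Agent.helper87.VD.AQAX
import Pool.Agent.helper83.VD.AQAD
import Pool.Agent.helper92.VD.AFHL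
import Pool.Agent.helper69.VD.AEBD
import Pool.Agent.helper47.VD.AEFX
import Pool.Agent.helper34.VD.AEWT
import Pool.Agent.helper98.VD.AELD
import Pool.Agent.helper74.VD.AQSA
import Pool.Agent.helper27.VD.APOL
import Pool.Agent.helper27.VD.AELA

/-!
# Project VD, block A1 (packets): assembly

From the four statements AMVI, AHLD, ASGF, ADMD of block A0: the final statements ABRD, AQSD, AISD, AQAD, AELD of block A1.
-/

set_option autoImplicit false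

namespace Pool.Agent.VD

theorem A1_ABRE : ABRE_stmt := ABRE_proof
theorem A1_ABRD : ABRD_stmt := ABRD_proof A1_ABRE
theorem A1_ABRG : ABRG_stmt := ABRG_proof
theorem A1_APLD : APLD_stmt := APLD_proof
theorem A1_AGRW : AGRW_stmt := AGRW_proof
theorem A1_AEXL : AEXL_stmt := AEXL_proof
theorem A1_AEID : AEID_stmt := AEID_proof A1_AGRW A1_AEXL
theorem A1_AEGN : AEGN_stmt := AEGN_proof A1_APLD
theorem A1_AMYS : AMYS_stmt := AMYS_proof

section

variable (hAMVI : AMVI_stmt) (hAHLD : AHLD_stmt) (hASGF : ASGF_stmt) (hADMD : ADMD_stmt)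

include hAMVI hADMD in
theorem A1_AUNG : AUNG_stmt := AUNG_proof hAMVI hADMD

include hAMVI hADMD in
theorem A1_AUNK : AUNK_stmt := AUNK_proof (A1_AUNG hAMVI hADMD) hAMVI

include hAMVI hADMD in
theorem A1_AUNF : AUNF_stmt := AUNF_proof hAMVI hADMD

include hASGF in
theorem A1_ANCH : ANCH_stmt := ANCH_proof hASGF

include hAMVI in
theorem A1_AFHB : AFHB_stmt := AFHB_proof hAMVI

include hAMVI hAHLD in
theorem A1_AQSA : AQSA_stmt := AQSA_proof A1_ABRD hAMVI hAHLD A1_AMYS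

include hAMVI hAHLD in
theorem A1_AQSN : AQSN_stmt := AQSN_proof A1_ABRD hAMVI hAHLD (A1_AQSA hAMVI hAHLD)

include hAMVI hAHLD hASGF in
theorem A1_AQSB : AQSB_stmt := AQSB_proof (A1_AQSA hAMVI hAHLD) (A1_AQSN hAMVI hAHLD) hAMVI A1_AMYS (A1_AFHB hAMVI) hASGF

include hAMVI hAHLD hASGF hADMD in
theorem A1_AQSC : AQSC_stmt := AQSC_proof (A1_AQSA hAMVI hAHLD) hAMVI hADMD A1_AMYS hASGF

include hAMVI hAHLD hADMD in
theorem A1_AQSE : AQSE_stmt := AQSE_proof (A1_AQSA hAMVI hAHLD) (A1_AQSN hAMVI hAHLD) (A1_AUNF hAMVI hADMD) hADMD A1_AMYS (A1_AFHB hAMVI) hAMVI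

include hAMVI hAHLD hASGF hADMD in
theorem A1_AQSD : AQSD_stmt := AQSD_proof (A1_AQSA hAMVI hAHLD) (A1_AQSN hAMVI hAHLD) (A1_AQSB hAMVI hAHLD hASGF) (A1_AQSC hAMVI hAHLD hASGF hADMD) (A1_AQSE hAMVI hAHLD hADMD)

include hAMVI in
theorem A1_AQFT : AQFT_stmt := AQFT_proof hAMVI

include hAMVI in
theorem A1_AISP : AISP_stmt := AISP_proof (A1_AQFT hAMVI) A1_APLD A1_ABRD hAMVI

include hASGF in
theorem A1_AWSM : AWSM_stmt := AWSM_proof A1_ABRD (A1_ANCH hASGF)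

include hAMVI hAHLD hASGF hADMD in
theorem A1_AISD : AISD_stmt := AISD_proof (A1_AISP hAMVI) (A1_AUNK hAMVI hADMD) (A1_AWSM hASGF) A1_AMYS (A1_AQSB hAMVI hAHLD hASGF) (A1_AFHB hAMVI) hAMVI

include hAMVI hAHLD hASGF hADMD in
theorem A1_APOL : APOL_stmt := APOL_proof (A1_AISD hAMVI hAHLD hASGF hADMD) (A1_AQSB hAMVI hAHLD hASGF) (A1_AFHB hAMVI) (A1_AQSN hAMVI hAHLD)

include hAMVI hAHLD hASGF hADMD in
theorem A1_AQAX : AQAX_stmt := AQAX_proof (A1_AISD hAMVI hAHLD hASGF hADMD) (A1_AQSD hAMVI hAHLD hASGF hADMD) hADMD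

include hAMVI hAHLD hASGF hADMD in
theorem A1_AQAD : AQAD_stmt :=
  AQAD_proof (A1_APOL hAMVI hAHLD hASGF hADMD) (A1_AQAX hAMVI hAHLD hASGF hADMD) (A1_AQSD hAMVI hAHLD hASGF hADMD) (A1_AISD hAMVI hAHLD hASGF hADMD) (A1_AFHB hAMVI) hADMD

include hAMVI hAHLD in
theorem A1_AFHL : AFHL_stmt := AFHL_proof hAMVI hAHLD

include hAHLD in
theorem A1_AEBD : AEBD_stmt := AEBD_proof hAHLD A1_ABRG A1_ABRD

include hAMVI hAHLD in
theorem A1_AEFX : AEFX_stmt := AEFX_proof A1_AEID A1_AEGN (A1_AEBD hAHLD) (A1_AQFT hAMVI) hAMVI hAHLD A1_ABRD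

include hAMVI hAHLD hASGF hADMD in
theorem A1_AELA : AELA_stmt :=
  AELA_proof (A1_AEFX hAMVI hAHLD) (A1_AUNK hAMVI hADMD) (A1_ANCH hASGF) A1_AMYS A1_ABRE (A1_AQSB hAMVI hAHLD hASGF) (A1_AFHB hAMVI) (A1_AFHL hAMVI hAHLD) hAMVI hAHLD

include hAHLD in
theorem A1_AEWT : AEWT_stmt := AEWT_proof hAHLD

include hAMVI hAHLD hASGF hADMD in
theorem A1_AELD : AELD_stmt := AELD_proof (A1_AELA hAMVI hAHLD hASGF hADMD) (A1_AEWT hAHLD) (A1_AQSA hAMVI hAHLD) (A1_AQSB hAMVI hAHLD hASGF) hADMD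

end

end Pool.Agent.VD
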