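import Pool.Agent.helper93.VD.SpecB1

/-!
# Project VD (MP_07c750_an), row NGV: volumes of Bowen balls and concatenation
-/

set_option autoImplicit false

namespace Pool.Agent.VD

open scoped InnerProductSpace ContDiff Topology
open MeasureTheory Set Filter

noncomputable section

theorem NGV_pl {m : ℕ} (L L' : ℕ → Z m →L[ℝ] Z m) : ∀ n : ℕ, (∀ i < n, L i = L' i) → pl L n = pl L' n := by
  intro n
  induction n with
  | zero => intro _; rfl
  | succ n ih =>
    intro h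
    show (L n).comp (pl L n) = (L' n).comp (pl L' n)
    rw [ih fun i hi => h i (by omega), h n (by omega)]

theorem NGV_it {m : ℕ} (F : ℕ → Z m → Z m) (h0 : ∀ i, F i 0 = 0) : ∀ n : ℕ, it F n 0 = 0 := by
  intro n
  induction n with
  | zero => rfl
  | succ n ih =>
    show F n (it F n 0) = 0
    rw [ih, h0]

theorem NGV_proof (hVFU : VFU_stmt) (hNDE : NDE_stmt) (hLQM : LQM_stmt) : NGV_stmt := by
  intro m c C e0 hc hC he0
  obtain ⟨e1, K, he1, he2, hK, hV⟩ := hVFU m c C e0 hc hC he0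
  obtain ⟨K2, hK2, hQ⟩ := hLQM m c C hc hC
  refine ⟨e1, he1, he2, fun ρ' ρ hρ' hρρ hρ => ?_⟩
  have hρ0 : 0 < ρ := lt_of_lt_of_le hρ' hρρ
  set B : ENNReal := volume (Metric.closedBall (0 : Z m) ρ) with hB
  set b : ENNReal := volume (Metric.closedBall (0 : Z m) ρ') with hb
  have hBt : B ≠ ⊤ := measure_closedBall_lt_top.ne
  have hb0 : b ≠ 0 := (Metric.measure_closedBall_pos volume (0 : Z m) hρ').ne'
  have hbt : b ≠ ⊤ := measure_closedBall_lt_top.ne
  -- the constants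
  set p : ENNReal := ENNReal.ofReal (K * ρ ^ (2 * m)) with hp
  set q : ENNReal := ENNReal.ofReal (ρ' ^ (2 * m) / K) with hq
  have hq0 : q ≠ 0 := by
    rw [hq, Ne, ENNReal.ofReal_eq_zero, not_le]
    positivity
  have hqt : q ≠ ⊤ := ENNReal.ofReal_ne_top
  have hpt : p ≠ ⊤ := ENNReal.ofReal_ne_top
  set c1 : ENNReal := ENNReal.ofReal K2 * (p * p) / q with hc1
  set c2 : ENNReal := B * (p / q) with hc2
  set c3 : ENNReal := B * B / b with hc3
  have h1t : c1 ≠ ⊤ := ENNReal.div_ne_top (ENNReal.mul_ne_top ENNReal.ofReal_ne_top (ENNReal.mul_ne_top hpt hpt)) hq0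
  have h2t : c2 ≠ ⊤ := ENNReal.mul_ne_top hBt (ENNReal.div_ne_top hpt hq0)
  have h3t : c3 ≠ ⊤ := ENNReal.div_ne_top (ENNReal.mul_ne_top hBt hBt) hb0
  have hsum : c1 + c2 + c3 ≠ ⊤ := by
    rw [ENNReal.add_ne_top, ENNReal.add_ne_top]
    exact ⟨⟨h1t, h2t⟩, h3t⟩
  refine ⟨max 1 (c1 + c2 + c3).toReal, le_max_left _ _, fun F n k hF h0 => ?_⟩
  have hC' : c1 + c2 + c3 ≤ ENNReal.ofReal (max 1 (c1 + c2 + c3).toReal) := by
    rw [← ENNReal.ofReal_toReal hsum, ENNReal.toReal_ofReal ENNReal.toReal_nonneg]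
    exact ENNReal.ofReal_le_ofReal (le_max_right _ _)
  have hc1' : c1 ≤ ENNReal.ofReal (max 1 (c1 + c2 + c3).toReal) := le_trans (le_trans le_self_add le_self_add) hC'
  have hc2' : c2 ≤ ENNReal.ofReal (max 1 (c1 + c2 + c3).toReal) := le_trans (le_trans le_add_self le_self_add) hC'
  have hc3' : c3 ≤ ENNReal.ofReal (max 1 (c1 + c2 + c3).toReal) := le_trans le_add_self hC'
  -- length zero
  have hball : ∀ (G : ℕ → Z m → Z m) (r : ℝ), {a : Z m | ∀ i ≤ 0, ‖it G i a‖ ≤ r} = Metric.closedBall (0 : Z m) r := by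
    intro G r
    ext a
    rw [mem_closedBall_zero_iff]
    constructor
    · intro h
      exact h 0 le_rfl
    · intro h i hi
      have hi0 : i = 0 := by omega
      subst hi0
      exact h
  -- two radii
  have hrad : ∀ (G : ℕ → Z m → Z m) (j : ℕ), (∀ i, HYP c C e0 (G i)) → (∀ i, G i 0 = 0) → 1 ≤ j →
      volume {a : Z m | ∀ i ≤ j, ‖it G i a‖ ≤ ρ} ≤ (p / q) * volume {a : Z m | ∀ i ≤ j, ‖it G i a‖ ≤ ρ'} := by
    intro G j hG hG0 hj
    have u1 := (hV G j ρ hG hG0 hj hρ0 hρ).1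
    have u2 := (hV G j ρ' hG hG0 hj hρ' (hρρ.trans hρ)).2
    set D := ENNReal.ofReal (dB (fderiv ℝ (it G j) 0))
    set x := volume {a : Z m | ∀ i ≤ j, ‖it G i a‖ ≤ ρ}
    set y := volume {a : Z m | ∀ i ≤ j, ‖it G i a‖ ≤ ρ'}
    have h3 : x * q ≤ p * y := calc
      x * q ≤ x * (D * y) := mul_le_mul_right u2 _
      _ = (D * x) * y := by ring
      _ ≤ p * y := mul_le_mul_left u1 _
    calc x = x * q / q := (ENNReal.mul_div_cancel_right hq0 hqt).symm
      _ ≤ p * y / q := ENNReal.div_le_div_right h3 _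
      _ = (p / q) * y := by rw [ENNReal.mul_div_right_comm]
  have hshift : ∀ i, HYP c C e0 (F (n + i)) := fun i => hF (n + i)
  have hshift0 : ∀ i, F (n + i) 0 = 0 := fun i => h0 (n + i)
  rcases Nat.eq_zero_or_pos n with hn | hn
  · subst hn
    rw [hball F ρ]
    rcases Nat.eq_zero_or_pos k with hk | hk
    · subst hk
      rw [hball _ ρ, add_zero, hball F ρ']
      calc B * B = B * B / b * b := (ENNReal.div_mul_cancel hb0 hbt).symm
        _ ≤ _ := mul_le_mul_left hc3' _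
    · have e1' : (fun j => F (0 + j)) = F := by funext j; rw [Nat.zero_add]
      rw [e1', Nat.zero_add]
      calc B * volume {a : Z m | ∀ i ≤ k, ‖it F i a‖ ≤ ρ} ≤ B * ((p / q) * volume {a : Z m | ∀ i ≤ k, ‖it F i a‖ ≤ ρ'}) :=
            mul_le_mul_right (hrad F k hF h0 hk) _
        _ = c2 * volume {a : Z m | ∀ i ≤ k, ‖it F i a‖ ≤ ρ'} := by rw [hc2, mul_assoc]
        _ ≤ _ := mul_le_mul_left hc2' _
  · rcases Nat.eq_zero_or_pos k with hk | hk
    · subst hk
      rw [hball _ ρ, add_zero, mul_comm]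
      calc B * volume {a : Z m | ∀ i ≤ n, ‖it F i a‖ ≤ ρ} ≤ B * ((p / q) * volume {a : Z m | ∀ i ≤ n, ‖it F i a‖ ≤ ρ'}) :=
            mul_le_mul_right (hrad F n hF h0 hn) _
        _ = c2 * volume {a : Z m | ∀ i ≤ n, ‖it F i a‖ ≤ ρ'} := by rw [hc2, mul_assoc]
        _ ≤ _ := mul_le_mul_left hc2' _
    · -- the determinants
      have hz : ∀ i, ‖it F i 0‖ < e0 := fun i => by rw [NGV_it F h0, norm_zero]; exact he0
      have hz' : ∀ i, ‖it (fun j => F (n + j)) i 0‖ < e0 := fun i => by rw [NGV_it _ hshift0, norm_zero]; exact he0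
      obtain ⟨L, hL1, hL2, -, hL3⟩ := hNDE m c C e0 F (n + k) 0 he0 hF fun i _ => hz i
      obtain ⟨L1, -, hM2, -, hM3⟩ := hNDE m c C e0 F n 0 he0 hF fun i _ => hz i
      obtain ⟨L2, -, hN2, -, hN3⟩ := hNDE m c C e0 (fun j => F (n + j)) k 0 he0 hshift fun i _ => hz' i
      have g1 : pl L n = fderiv ℝ (it F n) 0 := by
        rw [hM3]
        exact NGV_pl _ _ n fun i hi => by rw [hL2 i (by omega), hM2 i hi]
      have g2 : pl (fun i => L (n + i)) k = fderiv ℝ (it (fun j => F (n + j)) k) 0 := by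
        rw [hN3]
        refine NGV_pl _ _ k fun i hi => ?_
        rw [hL2 (n + i) (by omega), hN2 i hi, NGV_it F h0, NGV_it _ hshift0]
      have hdet := (hQ L hL1 n k hn hk).1
      rw [← hL3, g1, g2] at hdet
      have u1 := (hV F n ρ hF h0 hn hρ0 hρ).1
      have u2 := (hV (fun j => F (n + j)) k ρ hshift hshift0 hk hρ0 hρ).1
      have u3 := (hV F (n + k) ρ' hF h0 (by omega) hρ' (hρρ.trans hρ)).2
      set x := volume {a : Z m | ∀ i ≤ n, ‖it F i a‖ ≤ ρ}
      set y := volume {a : Z m | ∀ i ≤ k, ‖it (fun j => F (n + j)) i a‖ ≤ ρ}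
      set z := volume {a : Z m | ∀ i ≤ n + k, ‖it F i a‖ ≤ ρ'}
      have hdE : ENNReal.ofReal (dB (fderiv ℝ (it F (n + k)) 0)) ≤
          ENNReal.ofReal K2 * (ENNReal.ofReal (dB (fderiv ℝ (it F n) 0)) * ENNReal.ofReal (dB (fderiv ℝ (it (fun j => F (n + j)) k) 0))) := by
        have hdn : 0 ≤ dB (fderiv ℝ (it F n) 0) := abs_nonneg _
        rw [← ENNReal.ofReal_mul hdn, ← ENNReal.ofReal_mul (by linarith)]
        exact ENNReal.ofReal_le_ofReal hdet
      set D1 := ENNReal.ofReal (dB (fderiv ℝ (it F n) 0))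
      set D2 := ENNReal.ofReal (dB (fderiv ℝ (it (fun j => F (n + j)) k) 0))
      set D3 := ENNReal.ofReal (dB (fderiv ℝ (it F (n + k)) 0))
      have h3 : x * y * q ≤ ENNReal.ofReal K2 * (p * p) * z := calc
        x * y * q ≤ x * y * (D3 * z) := mul_le_mul_right u3 _
        _ ≤ x * y * (ENNReal.ofReal K2 * (D1 * D2) * z) := mul_le_mul_right (mul_le_mul_left hdE _) _
        _ = ENNReal.ofReal K2 * ((D1 * x) * (D2 * y)) * z := by ring
        _ ≤ ENNReal.ofReal K2 * (p * p) * z := mul_le_mul_left (mul_le_mul_right (mul_le_mul' u1 u2) _) _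
      calc x * y = x * y * q / q := (ENNReal.mul_div_cancel_right hq0 hqt).symm
        _ ≤ ENNReal.ofReal K2 * (p * p) * z / q := ENNReal.div_le_div_right h3 _
        _ = c1 * z := by rw [hc1, ENNReal.mul_div_right_comm]
        _ ≤ _ := mul_le_mul_left hc1' _

end

end Pool.Agent.VD
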