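import Pool.Agent.helper74.VD.SpecI

/-!
# Project VD (MP_07c750_an), BLOCK A1 (packets): rows `vd:AXXX`

The final statements ABRD, AQSD, AISD, AQAD, AELD of block A1 are in `helper74/VD/SpecI.lean`; this file contains the intermediate rows. Statements of block A0 (AMVI, AHLD, ASGF, ADMD) are open rows of helper74 and are used as hypotheses.

RULES. Row `vd:AXXX`: file `Pool/Agent/<seat>/VD/AXXX.lean`, `import Pool.Agent.helper47.VD.SpecA1`, `set_option autoImplicit false`, namespace `Pool.Agent.VD`, auxiliary lemmas prefixed `AXXX_`, the exact theorem line is in the lock note.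
No `convert`, `congr!`, `native_decide`, no double quotes, no `private`.

NOTATION. `e_i = EuclideanSpace.single i 1`. `QF φ (γ, (x, ξ)) = e^(iR⟪ξ,x⟫) ∫ u(w) b(w) e^(-iR⟪ξ,w⟫) dw`, `u(w) = φ(γ w) dens(w)^(1/2)`, `b(w) = cR χ(x) b0(w - x)`.
-/

set_option autoImplicit false

open scoped ContDiff Topology InnerProductSpace ComplexConjugate ENNReal
open MeasureTheory Filter Set

namespace Pool.Agent.VD

open Pool.Agent.VQ (CH)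

noncomputable section

/-- the Fourier transform with the frequency `R ξ` -/
def FTR {d : ℕ} (R : ℝ) (h : V d → ℂ) (ξ : V d) : ℂ := ∫ w : V d, h w * Complex.exp (-(((R * ⟪ξ, w⟫_ℝ : ℝ) : ℂ) * Complex.I))

/-- the Gaussian majorant of the truncated Gaussian and its derivatives -/
def gk {d : ℕ} (ζ R : ℝ) (v : V d) : ℝ := (Metric.closedBall (0 : V d) (R ^ (-(1 / 2) + ζ))).indicator (fun v => Real.exp (-(R * ‖v‖ ^ 2 / 2))) v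

/-- the flat Laplacian `∑ ∂_i (h^(ij) ∂_j u)`, for real and complex functions -/
def LHO {d : ℕ} {E : Type} [NormedAddCommGroup E] [NormedSpace ℝ E] (h : V d → V d →L[ℝ] V d) (u : V d → E) (x : V d) : E :=
  ∑ i : Fin d, fderiv ℝ (fun y => fderiv ℝ u y (h y (EuclideanSpace.single i 1))) x (EuclideanSpace.single i 1)

/-- the divergence `∑_i ⟪ξ, (∂_i h) e_i⟫` of the vector field `h ξ` (`h` symmetric) -/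
def dvh {d : ℕ} (h : V d → V d →L[ℝ] V d) (ξ x : V d) : ℝ := ∑ i : Fin d, ⟪ξ, fderiv ℝ h x (EuclideanSpace.single i 1) (EuclideanSpace.single i 1)⟫_ℝ

/-! ## 1. The profile -/

/-- **ABRE** (short-medium; PURE) the integrals of the profile. `s = R^(1-2ζ) |v|²`. `b0² = e^(-R|v|²) ch(s)²`, `∫ e^(-R|v|²) = (π/R)^(d/2)` (`GaussianFourier.integral_rexp_neg_mul_sq_norm`, finrank `V d = d`), `0 ≤ ch ≤ 1`. Upper bounds: monotonicity.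
Lower bound: `e^(-R|v|²) (1 - ch(s)²) ≤ e^(-R^(2ζ)/4) e^(-R|v|²/2)` (it is `0` for `s ≤ 1/2`; for `s ≥ 1/2`: `R|v|² = R^(2ζ) s ≥ R^(2ζ)/2`), integral `≤ 2^(d/2) e^(-R^(2ζ)/4) (π/R)^(d/2) ≤ R^(-1/2) (π/R)^(d/2)` for `R ≥ R0(d, ζ)`. `d = 0`: `V 0` is a point, `b0 0 = 1`. -/
def ABRE_stmt : Prop := ∀ (d : ℕ) (ch : ℝ → ℝ) (ζ : ℝ), CH ch → 0 < ζ → ζ ≤ 1 / 8 → ∃ R0 : ℝ, 1 ≤ R0 ∧ ∀ R : ℝ, R0 ≤ R →
  Integrable (fun v : V d => b0 ch ζ R v) ∧ Integrable (fun v : V d => b0 ch ζ R v ^ 2) ∧ (d = 0 → bR d ch ζ R = 1) ∧ bR d ch ζ R ≤ (Real.pi / R) ^ ((d : ℝ) / 2) ∧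
  (1 - R ^ (-(1 / 2) : ℝ)) * (Real.pi / R) ^ ((d : ℝ) / 2) ≤ bR d ch ζ R ∧ ∫ v : V d, b0 ch ζ R v ≤ (2 * Real.pi / R) ^ ((d : ℝ) / 2) ∧
  (∀ v : V d, 0 ≤ gk ζ R v) ∧ Integrable (fun v : V d => gk ζ R v ^ 2) ∧ ∫ v : V d, gk ζ R v ^ 2 ≤ (Real.pi / R) ^ ((d : ℝ) / 2)

/-- **ABRG** (medium; PURE) the derivatives of the profile: bounds by the Gaussian `gk`. `b0 = F(|v|²)`, `F(s) = e^(-Rs/2) ch(R^(1-2ζ) s)`; `D b0(v) = 2 F'(|v|²) ⟪v, ·⟫`, `D² b0(v) = 4 F'' ⟪v, ·⟫⟪v, ·⟫ + 2 F' ⟪·, ·⟫`. With `M = sup |ch'| + sup |ch''|` (both are continuous, and `0` for `s > 1` and for `s < 1/2`): `|F'| ≤ (1/2 + M) R e^(-Rs/2)`,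
`|F''| ≤ (1/4 + 2M) R² e^(-Rs/2)`; `|v| ≤ ρ = R^(-1/2+ζ)` on the support, so `|D b0| ≤ (1 + 2M) R^(1/2+ζ) e^(-R|v|²/2)`, `|D² b0| ≤ (2 + 10 M) R^(1+2ζ) e^(-R|v|²/2)`; the constants are `≤ R^ζ` for `R ≥ R0`. For `|v| > ρ`, `b0 = 0` near `v`. -/
def ABRG_stmt : Prop := ∀ (d : ℕ) (ch : ℝ → ℝ) (ζ : ℝ), CH ch → 0 < ζ → ζ ≤ 1 / 8 → ∃ R0 : ℝ, 1 ≤ R0 ∧ ∀ R : ℝ, R0 ≤ R → ∀ v : V d,
  |b0 ch ζ R v| ≤ gk ζ R v ∧ ‖fderiv ℝ (b0 ch ζ R : V d → ℝ) v‖ ≤ R ^ (1 / 2 + 2 * ζ) * gk ζ R v ∧ ‖fderiv ℝ (fderiv ℝ (b0 ch ζ R : V d → ℝ)) v‖ ≤ R ^ (1 + 3 * ζ) * gk ζ R v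

/-! ## 2. Fourier transform and flat calculus (all PURE) -/

/-- **APLD** (Plancherel; short-medium; PURE). Mathlib's Fourier transform and Plancherel on `V d`, scaled by `R/(2π)`: `FTR R h ξ = 𝓕 h (R ξ/(2π))`. Model (dimension 2): `helper58/VQ/VPL.lean`. -/
def APLD_stmt : Prop := ∀ (d : ℕ) (R : ℝ) (h : V d → ℂ), 0 < R → Integrable h → MemLp h 2 → Continuous (FTR R h) ∧
  ∫⁻ ξ : V d, ‖FTR R h ξ‖ₑ ^ 2 = ENNReal.ofReal ((2 * Real.pi / R) ^ d * ∫ v : V d, ‖h v‖ ^ 2)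

/-- **AGRW** (Green's formula in flat space; short-medium; PURE). `∫ ∑_i ∂_i(Du(h e_i)) f = -∑_i ∫ Du(h e_i) Df(e_i)` (integration by parts; `f` has compact support, `Du(h e_i)` is `C¹`; e.g. `integral_mul_fderiv_eq_neg_fderiv_mul_of_integrable` or the line derivative version), and
`∑_i Du(x)(h e_i) Df(x)(e_i) = ∑_i Df(x)(h e_i) Du(x)(e_i)` (`h e_i = ∑_j ⟪h e_i, e_j⟫ e_j`, symmetry of `h`), back by the same integration by parts. -/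
def AGRW_stmt : Prop := ∀ (d : ℕ) (h : V d → V d →L[ℝ] V d) (u f : V d → ℂ), ContDiff ℝ ∞ h → (∀ x v w : V d, ⟪h x v, w⟫_ℝ = ⟪v, h x w⟫_ℝ) → ContDiff ℝ 2 u → ContDiff ℝ 2 f → HasCompactSupport f →
  ∫ x, LHO h u x * f x = ∫ x, u x * LHO h f x

/-- **AEXL** (the product `b e^(-iR⟪ξ,·⟫)`; short-medium; PURE). `f = b e`, `Df(y)(v) = e (Db(y)(v) - iR b ⟪ξ, v⟫)`; put `v = h(y) e_i`, differentiate in the direction `e_i`, sum over `i`: `∑ ξ_i Db(h e_i) = Db(h ξ)`, `∑ ξ_i ⟪ξ, h e_i⟫ = ⟪h ξ, ξ⟫`, `∑ Db(e_i) ⟪ξ, h e_i⟫ = Db(h ξ)` (symmetry of `h`). -/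
def AEXL_stmt : Prop := ∀ (d : ℕ) (h : V d → V d →L[ℝ] V d) (b : V d → ℝ) (R : ℝ) (ξ x : V d), ContDiff ℝ ∞ h → (∀ x v w : V d, ⟪h x v, w⟫_ℝ = ⟪v, h x w⟫_ℝ) → ContDiff ℝ 2 b →
  LHO h (fun w => ((b w : ℝ) : ℂ) * Complex.exp (-(((R * ⟪ξ, w⟫_ℝ : ℝ) : ℂ) * Complex.I))) x =
    (((LHO h b x - R ^ 2 * (b x * ⟪h x ξ, ξ⟫_ℝ) : ℝ) : ℂ) - Complex.I * ((R * (2 * fderiv ℝ b x (h x ξ) + b x * dvh h ξ x) : ℝ) : ℂ)) * Complex.exp (-(((R * ⟪ξ, x⟫_ℝ : ℝ) : ℂ) * Complex.I))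

/-- **AEID** (the identity of Fourier transforms; short-medium; PURE; from AGRW, AEXL). AGRW for `f = b e`, `e = e^(-iR⟪ξ,·⟫)`, and AEXL: `∫ (LHO u) b e = ∫ u e (LHO b - R² b ⟪h(w)ξ,ξ⟫ - iR (2 Db(h ξ) + b dvh h ξ))`. Expand `ξ = ∑ ξ_i e_i` (all are linear in `ξ`), and `⟪h0 ξ, ξ⟫ = ⟪h(w) ξ, ξ⟫ + ∑_ij ξ_i ξ_j ⟪(h0 - h(w)) e_i, e_j⟫`.
All integrands are continuous with compact support. -/
def AEID_stmt : Prop := ∀ (d : ℕ) (h : V d → V d →L[ℝ] V d) (h0 : V d →L[ℝ] V d) (u : V d → ℂ) (b : V d → ℝ) (R : ℝ) (ξ : V d), ContDiff ℝ ∞ h → (∀ x v w : V d, ⟪h x v, w⟫_ℝ = ⟪v, h x w⟫_ℝ) → ContDiff ℝ 2 u → ContDiff ℝ 2 b → HasCompactSupport b →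
  ((R ^ 2 * ⟪h0 ξ, ξ⟫_ℝ : ℝ) : ℂ) * FTR R (fun w => u w * ((b w : ℝ) : ℂ)) ξ = -FTR R (fun w => LHO h u w * ((b w : ℝ) : ℂ)) ξ + FTR R (fun w => u w * ((LHO h b w : ℝ) : ℂ)) ξ -
    Complex.I * (R : ℂ) * (∑ i : Fin d, ((ξ i : ℝ) : ℂ) * FTR R (fun w => u w * ((2 * fderiv ℝ b w (h w (EuclideanSpace.single i 1)) + b w * dvh h (EuclideanSpace.single i 1) w : ℝ) : ℂ)) ξ) +
    ((R ^ 2 : ℝ) : ℂ) * ∑ i : Fin d, ∑ j : Fin d, ((ξ i * ξ j : ℝ) : ℂ) * FTR R (fun w => u w * ((b w * ⟪(h0 - h w) (EuclideanSpace.single i 1), (EuclideanSpace.single j 1 : V d)⟫_ℝ : ℝ) : ℂ)) ξ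

/-- **AEGN** (an abstract bound; short-medium; PURE; from APLD). Divide by `2 R² (1 + |ξ|²)`: `|ξ_i| ≤ 1 + |ξ|²`, `|ξ_i ξ_j| ≤ 1 + |ξ|²`; `(∑ of n terms)² ≤ n ∑ squares`, `n = 2 + d + d²`; Plancherel for every term (continuous functions of compact support are in `L¹ ∩ L²`). -/
def AEGN_stmt : Prop := ∀ (d : ℕ) (R : ℝ) (θ : V d → ℝ) (W A A0 : V d → ℂ) (A1 : Fin d → V d → ℂ) (A2 : Fin d → Fin d → V d → ℂ), 1 ≤ R → Measurable θ → (Continuous W ∧ HasCompactSupport W) → (Continuous A ∧ HasCompactSupport A) → (Continuous A0 ∧ HasCompactSupport A0) →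
  (∀ i, Continuous (A1 i) ∧ HasCompactSupport (A1 i)) → (∀ i j, Continuous (A2 i j) ∧ HasCompactSupport (A2 i j)) →
  (∀ ξ : V d, ((2 * R ^ 2 * θ ξ : ℝ) : ℂ) * FTR R W ξ = FTR R A ξ + FTR R A0 ξ - Complex.I * (R : ℂ) * (∑ i : Fin d, ((ξ i : ℝ) : ℂ) * FTR R (A1 i) ξ) + ((R ^ 2 : ℝ) : ℂ) * ∑ i : Fin d, ∑ j : Fin d, ((ξ i * ξ j : ℝ) : ℂ) * FTR R (A2 i j) ξ) →
  ∫⁻ ξ : V d, ENNReal.ofReal (θ ξ ^ 2 / (1 + ‖ξ‖ ^ 2) ^ 2) * ‖FTR R W ξ‖ₑ ^ 2 ≤ ENNReal.ofReal ((2 * Real.pi / R) ^ d * ((2 + d + d ^ 2 : ℝ) *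
    (R ^ (-4 : ℝ) * (∫ w, ‖A w‖ ^ 2) + R ^ (-4 : ℝ) * (∫ w, ‖A0 w‖ ^ 2) + R ^ (-2 : ℝ) * (∑ i, ∫ w, ‖A1 i w‖ ^ 2) + ∑ i, ∑ j, ∫ w, ‖A2 i j w‖ ^ 2)))

/-! ## 3. Measure theory of the index set; unfolding -/

/-- **AMYS** (short; PURE) measure theory on `YS Γ d` for countable `Γ`: `measurable_from_prod_countable`, `lintegral_prod`, `lintegral_count`; `volume` on `P d = V d × V d` is the product measure. -/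
def AMYS_stmt : Prop := ∀ (d : ℕ) (Γ : Type) [Group Γ] [Countable Γ],
  (∀ (α : Type) [MeasurableSpace α] (f : YS Γ d → α), (∀ γ : Γ, Measurable fun p : P d => f (γ, p)) → Measurable f) ∧
  (∀ (α : Type) [MeasurableSpace α] (f : YS Γ d → V d → α), (∀ γ : Γ, Measurable fun q : P d × V d => f (γ, q.1) q.2) → Measurable (Function.uncurry f)) ∧
  (∀ T : Set Γ, MeasurableSet (DT d T)) ∧
  (∀ (T : Set Γ) (f : YS Γ d → ENNReal), Measurable f → ∫⁻ y in DT d T, f y ∂mY Γ d = ∑' γ : T, ∫⁻ p : P d, f ((γ : Γ), p)) ∧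
  (∀ (T : Set Γ) (f : YS Γ d → ENNReal), Measurable f → ∫⁻ y in DT d T, f y ∂mY Γ d = ∑' γ : T, ∫⁻ x : V d, ∫⁻ ξ : V d, f ((γ : Γ), (x, ξ))) ∧
  ∀ (f : YS Γ d → ℂ) (S : Finset Γ), Measurable f → (∀ y, f y ≠ 0 → y.1 ∈ S) → (∀ γ ∈ S, Integrable fun p : P d => f (γ, p)) → Integrable f (mY Γ d) ∧ ∫ y, f y ∂mY Γ d = ∑ γ ∈ S, ∫ p : P d, f (γ, p)

/-- **AUNG** (unfolding, sum over the charts; short-medium; from AMVI, ADMD). `T = univ`, `F = univ`, `Λ = ⊥`: `lintegral_tsum`. `T = {1}`, `Λ = ⊤`, `F` a fundamental domain: `∫ g 1 z = ∑_κ ∫_(κ⁻¹ F) g 1 z = ∑_κ ∫_F g 1 (κ⁻¹ z) = ∑_κ ∫_F g κ z` (lemma `VSH_unf` of `helper73/VQ/VSH.lean` may be used). -/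
def AUNG_stmt : Prop := ∀ (d : ℕ) (Γ : Type) [Group Γ] [MulAction Γ (V d)] (K : Set (V d)) (k : ℝ) (B : ℕ → ℕ → ℝ) (G : V d → V d →L[ℝ] V d), FdK Γ K → Cls Γ K k B G → ∀ (Λ : Subgroup Γ) (F : Set (V d)) (T : Set Γ), Dm Λ F T →
  ∀ g : Γ → V d → ENNReal, (∀ γ, Measurable (g γ)) → (∀ κ ∈ Λ, ∀ (γ : Γ) (z : V d), g (κ * γ) (κ • z) = g γ z) → ∑' γ : T, ∫⁻ z, g γ z ∂mv G = ∫⁻ z in F, ∑' γ : Γ, g γ z ∂mv G

/-- **AUNK** (short; from AUNG, AMVI). Tonelli: the left side is `∑_(γ ∈ T) ∫ f(γ w) (∫ c(x) k0(w - x) dx) dmv(w)`; substitute `w = γ⁻¹ z` (invariance of `mv`), AUNG for `g γ z = (∫ c(x) k0(γ⁻¹ z - x) dx) f z`. -/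
def AUNK_stmt : Prop := ∀ (d : ℕ) (Γ : Type) [Group Γ] [MulAction Γ (V d)] (K : Set (V d)) (k : ℝ) (B : ℕ → ℕ → ℝ) (G : V d → V d →L[ℝ] V d), FdK Γ K → Cls Γ K k B G → ∀ (Λ : Subgroup Γ) (F : Set (V d)) (T : Set Γ), Dm Λ F T →
  ∀ c k0 f : V d → ENNReal, Measurable c → Measurable k0 → Measurable f → (∀ κ ∈ Λ, ∀ z : V d, f (κ • z) = f z) →
    ∑' γ : T, ∫⁻ x : V d, c x * ∫⁻ w, k0 (w - x) * f ((γ : Γ) • w) ∂mv G = ∫⁻ z in F, (∑' γ : Γ, ∫⁻ x : V d, c x * k0 (γ⁻¹ • z - x)) * f z ∂mv G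

/-- **AUNF** (unfolding on `YS × V`; short-medium; from AMVI, ADMD). First part: row VSH of VQ (`Pool.Agent.VQ.VSH_proof`, file `helper73/VQ/VSH.lean`) with the countable group `Λ`, `X = YS Γ d`, `Y = V d`. Second part: real and imaginary, positive and negative parts (or model: `VQS_adj` in `helper67/VQ/VQS.lean`). -/
def AUNF_stmt : Prop := ∀ (d : ℕ) (Γ : Type) [Group Γ] [MulAction Γ (V d)] (K : Set (V d)) (k : ℝ) (B : ℕ → ℕ → ℝ) (G : V d → V d →L[ℝ] V d), FdK Γ K → Cls Γ K k B G → ∀ (Λ : Subgroup Γ) (F : Set (V d)) (T : Set Γ), Dm Λ F T →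
  (∀ H : YS Γ d → V d → ENNReal, Measurable (Function.uncurry H) → (∀ κ ∈ Λ, ∀ (y : YS Γ d) (z : V d), H (κ • y) (κ • z) = H y z) → ∫⁻ y in DT d T, ∫⁻ z, H y z ∂mv G ∂mY Γ d = ∫⁻ z in F, ∫⁻ y, H y z ∂mY Γ d ∂mv G) ∧
  ∀ H : YS Γ d → V d → ℂ, Measurable (Function.uncurry H) → (∀ κ ∈ Λ, ∀ (y : YS Γ d) (z : V d), H (κ • y) (κ • z) = H y z) → ∫⁻ y in DT d T, ∫⁻ z, ‖H y z‖ₑ ∂mv G ∂mY Γ d ≠ ⊤ →
    ∫ y in DT d T, ∫ z, H y z ∂mv G ∂mY Γ d = ∫ z in F, ∫ y, H y z ∂mY Γ d ∂mv G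

/-- **ANCH** (short; from ASGF) the number of charts at a point. If `‖γ₀⁻¹ z‖ ≤ r` then `γ ↦ γ⁻¹ γ₀` maps `{γ | ‖γ⁻¹ z‖ ≤ r}` injectively into `SG r` (`γ⁻¹ z = (γ⁻¹ γ₀)(γ₀⁻¹ z)`). Second part: the sum has at most `N` nonzero terms. -/
def ANCH_stmt : Prop := ∀ (d : ℕ) (Γ : Type) [Group Γ] [MulAction Γ (V d)] (K : Set (V d)) (r : ℝ), FdK Γ K → ∃ N : ℕ, 1 ≤ N ∧ ∀ z : V d, {γ : Γ | ‖γ⁻¹ • z‖ ≤ r}.Finite ∧ {γ : Γ | ‖γ⁻¹ • z‖ ≤ r}.ncard ≤ N ∧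
  ∀ (M : V d → ENNReal) (a : ENNReal), (∀ w, M w ≠ 0 → ‖w‖ ≤ r) → (∀ w, M w ≤ a) → ∑' γ : Γ, M (γ⁻¹ • z) ≤ N * a

/-- **AFHB** (short) functions in `FH` are bounded, and are in all `L^p` of `F`; sums. `T = {1}`: `F` is bounded, `φ` is bounded on a closed ball which contains `F`, hence everywhere by invariance. `F = univ`: compact support. `FH` is stable under linear combinations (a common bound for the supports: in the first setting `F` is bounded). From AMVI. -/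
def AFHB_stmt : Prop := ∀ (d : ℕ) (Γ : Type) [Group Γ] [MulAction Γ (V d)] (K : Set (V d)) (k : ℝ) (B : ℕ → ℕ → ℝ) (G : V d → V d →L[ℝ] V d), FdK Γ K → Cls Γ K k B G → ∀ (Λ : Subgroup Γ) (F : Set (V d)) (T : Set Γ), Dm Λ F T →
  (∀ φ : V d → ℂ, FH Λ F φ → (∃ b : ℝ, ∀ z, ‖φ z‖ ≤ b) ∧ IntegrableOn φ F (mv G) ∧ MemLp φ 2 ((mv G).restrict F) ∧ IntegrableOn (fun z => ‖φ z‖ ^ 2) F (mv G) ∧ 0 ≤ nn G F φ ∧ ∫⁻ z in F, ‖φ z‖ₑ ^ 2 ∂mv G = ENNReal.ofReal (nn G F φ)) ∧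
  (∀ (a b : ℂ) (φ ψ : V d → ℂ), FH Λ F φ → FH Λ F ψ → FH Λ F (fun z => a * φ z + b * ψ z)) ∧ ∀ (a b : ℂ) (v v' : YS Γ d → ℂ), FP Λ T v → FP Λ T v' → FP Λ T (fun y => a * v y + b * v' y)

end

end Pool.Agent.VD
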