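import Pool.Agent.helper47.VD.SpecA1

/-!
# Project VD (MP_07c750_an), BLOCK A1 (packets), second file: rows `vd:AXXX`

Row `vd:AXXX`: file `Pool/Agent/<seat>/VD/AXXX.lean`, `import Pool.Agent.helper47.VD.SpecA1b`, otherwise the rules of `SpecA1.lean`. The final statements ABRD, AQSD, AISD, AQAD, AELD are in `helper74/VD/SpecI.lean`.
-/

set_option autoImplicit false

open scoped ContDiff Topology InnerProductSpace ComplexConjugate ENNReal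
open MeasureTheory Filter Set

namespace Pool.Agent.VD

open Pool.Agent.VQ (CH)

noncomputable section

/-- the half density `φ(γ w) dens(w)^(1/2)` in the chart `γ` -/
def uf {d : ℕ} {Γ : Type} [Group Γ] [MulAction Γ (V d)] (G : V d → V d →L[ℝ] V d) (φ : V d → ℂ) (γ : Γ) (w : V d) : ℂ := φ (γ • w) * ((Real.sqrt (dens G w) : ℝ) : ℂ)

/-! ## 4. Packets: regularity -/

/-- **AQSA** (short-medium; from ABRD, AMVI, AHLD, AMYS) pointwise facts. `Gp G χ ch ζ R (γ, (x, ξ)) z = χ(x) pkt (x, ξ) (γ⁻¹ z)`. Continuity: `b0` is smooth (ABRD), `dens` continuous and positive (AMVI), `z ↦ γ⁻¹ z` continuous (`FdK.smooth`). Support: PU (`χ ≠ 0 → ‖x‖ ≤ r0 - 1`), ABRD.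
Bound: `χ ≤ 1`, `cR ≤ R^(3d/4)`, `b0 ≤ 1`, `dens(w)^(-1/2) ≤ C^(1/2) ≤ R^ζ` for `‖w‖ ≤ r0` (AHLD with `r = r0`). Invariance: `(γ κ)⁻¹ (γ z) = κ⁻¹ z`. Measurability: AMYS, second part. -/
def AQSA_stmt : Prop := ∀ (d : ℕ) (Γ : Type) [Group Γ] [MulAction Γ (V d)] (K : Set (V d)) (k : ℝ) (B : ℕ → ℕ → ℝ) (r0 : ℝ) (χ : V d → ℝ) (ch : ℝ → ℝ) (ζ : ℝ), FdK Γ K → PU Γ r0 χ → CH ch → 0 < ζ → ζ ≤ 1 / 8 → ∃ R0 : ℝ, 1 ≤ R0 ∧ ∀ (R : ℝ) (G : V d → V d →L[ℝ] V d), R0 ≤ R → Cls Γ K k B G →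
  (∀ γ : Γ, Continuous fun x : P d × V d => Gp G χ ch ζ R ((γ, x.1) : YS Γ d) x.2) ∧
  (∀ (y : YS Γ d) (z : V d), Gp G χ ch ζ R y z ≠ 0 → ‖y.2.1‖ ≤ r0 - 1 ∧ ‖y.1⁻¹ • z - y.2.1‖ ≤ R ^ (-(1 / 2) + ζ) ∧ ‖y.1⁻¹ • z‖ ≤ r0) ∧ (∀ (y : YS Γ d) (z : V d), ‖Gp G χ ch ζ R y z‖ ≤ R ^ (3 * (d : ℝ) / 4 + ζ)) ∧
  (∀ (γ : Γ) (y : YS Γ d) (z : V d), Gp G χ ch ζ R (γ • y) (γ • z) = Gp G χ ch ζ R y z) ∧ Measurable (Function.uncurry (Gp (Γ := Γ) G χ ch ζ R)) ∧ R ^ (-(1 / 2) + ζ) ≤ 1 / 4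

/-- **AQSN** (short-medium; from ABRD, AMVI, AHLD, AQSA) the norms of one packet. Substitution `z = γ w` (invariance of `mv`, AMVI), `mv = dens dw`: `∫ |Gp|² = χ² cR² ∫ b0(w - x)² dw = χ² cR² bR = χ² (R/2π)^d`; `∫ |Gp| = χ cR ∫ b0(w - x) dens(w)^(1/2) dw ≤ C^(1/2) R^(3d/4) (2π/R)^(d/2)`, and
`C^(1/2) (2π)^(d/2) ≤ R^ζ` for `R ≥ R0`. Integrability: continuous with compact support. -/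
def AQSN_stmt : Prop := ∀ (d : ℕ) (Γ : Type) [Group Γ] [MulAction Γ (V d)] (K : Set (V d)) (k : ℝ) (B : ℕ → ℕ → ℝ) (r0 : ℝ) (χ : V d → ℝ) (ch : ℝ → ℝ) (ζ : ℝ), FdK Γ K → PU Γ r0 χ → CH ch → 0 < ζ → ζ ≤ 1 / 8 → ∃ R0 : ℝ, 1 ≤ R0 ∧ ∀ (R : ℝ) (G : V d → V d →L[ℝ] V d), R0 ≤ R → Cls Γ K k B G →
  (∀ y : YS Γ d, Integrable (Gp G χ ch ζ R y) (mv G)) ∧ (∀ y : YS Γ d, ∫ z, ‖Gp G χ ch ζ R y z‖ ^ 2 ∂mv G = χ y.2.1 ^ 2 * (R / (2 * Real.pi)) ^ d) ∧ ∀ y : YS Γ d, ∫ z, ‖Gp G χ ch ζ R y z‖ ∂mv G ≤ R ^ ((d : ℝ) / 4 + ζ)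

/-- **AQSB** (short-medium; from AQSA, AQSN, AMVI, AMYS, AFHB, ASGF) the coefficients. Bounded: `sup |φ| ∫ |Gp|`. Continuous: for a fixed chart all packets are supported in the compact set `γ closedBall 0 r0` (`continuous_parametric_integral_of_continuous`). Measurable: AMYS. Invariance: AQSA, invariance of `mv`.
Support: `T = {1}` trivial; `T = univ`: `φ z ≠ 0`, `Gp y z ≠ 0` give `‖z‖ ≤ b`, `‖γ⁻¹ z‖ ≤ r0`, so `γ⁻¹ ∈ SG (max b r0)`, a finite set. Model: `VQS_Q` in `helper67/VQ/VQS.lean`. -/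
def AQSB_stmt : Prop := ∀ (d : ℕ) (Γ : Type) [Group Γ] [MulAction Γ (V d)] (K : Set (V d)) (k : ℝ) (B : ℕ → ℕ → ℝ) (r0 : ℝ) (χ : V d → ℝ) (ch : ℝ → ℝ) (ζ : ℝ), FdK Γ K → PU Γ r0 χ → CH ch → 0 < ζ → ζ ≤ 1 / 8 → ∃ R0 : ℝ, 1 ≤ R0 ∧ ∀ (R : ℝ) (G : V d → V d →L[ℝ] V d), R0 ≤ R → Cls Γ K k B G →
  ∀ (Λ : Subgroup Γ) (F : Set (V d)) (T : Set Γ), Dm Λ F T → ∀ φ : V d → ℂ, FH Λ F φ → FP Λ T (QF (Γ := Γ) G χ ch ζ R φ) ∧ ∀ γ : Γ, Continuous fun p : P d => QF G χ ch ζ R φ ((γ, p) : YS Γ d)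

/-- **AQSC** (medium; from AQSA, AMVI, ADMD, AMYS, ASGF) the synthesis. For `z` in a bounded set only finitely many charts contribute (`‖γ⁻¹ z‖ ≤ r0`, `SG`); the window `{p | ‖p.1‖ ≤ r0, |Ep| ≤ 2 R^(-1/4)}` has finite measure (ADMD), `v` and `Gp` are bounded: AMYS (last part) and dominated convergence for every chart.
Invariance: `Gp (κ y) (κ z) = Gp y z`, `v (κ y) = v y`, `mW` is invariant (ADMD). Support: `F` bounded, or `v` lives in finitely many charts. Model: `VQS_S`, `VQS_Scont` in `helper67/VQ/VQS.lean`. -/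
def AQSC_stmt : Prop := ∀ (d : ℕ) (Γ : Type) [Group Γ] [MulAction Γ (V d)] (K : Set (V d)) (k : ℝ) (B : ℕ → ℕ → ℝ) (r0 : ℝ) (χ : V d → ℝ) (ch : ℝ → ℝ) (ζ : ℝ), FdK Γ K → PU Γ r0 χ → CH ch → 0 < ζ → ζ ≤ 1 / 8 → ∃ R0 : ℝ, 1 ≤ R0 ∧ ∀ (R : ℝ) (G : V d → V d →L[ℝ] V d), R0 ≤ R → Cls Γ K k B G →
  ∀ (Λ : Subgroup Γ) (F : Set (V d)) (T : Set Γ), Dm Λ F T → ∀ v : YS Γ d → ℂ, FP Λ T v → FH Λ F (Qs G r0 χ ch ζ R v) ∧ ∀ z : V d, Integrable (fun y => v y * Gp G χ ch ζ R y z) (mW Γ G r0 R)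

/-- **AQSE** (duality; medium; from AQSA, AQSN, AUNF, ADMD, AMYS, AFHB, AMVI). AUNF (second part) for `H y z = 1_(GW)(y) φ z conj (Gp y z) conj (v y)`. Left side: `∫_(DT) 1_GW (QF φ) conj v`; right side: `∫_F φ conj (Qs v)`. The double integral of `|H|` is at most `sup|φ| sup|v| R^(d/4+ζ)` times the measure of the window in
the finitely many charts in `T` where `v ≠ 0`. Model: `VQS_adj` in `helper67/VQ/VQS.lean`. -/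
def AQSE_stmt : Prop := ∀ (d : ℕ) (Γ : Type) [Group Γ] [MulAction Γ (V d)] (K : Set (V d)) (k : ℝ) (B : ℕ → ℕ → ℝ) (r0 : ℝ) (χ : V d → ℝ) (ch : ℝ → ℝ) (ζ : ℝ), FdK Γ K → PU Γ r0 χ → CH ch → 0 < ζ → ζ ≤ 1 / 8 → ∃ R0 : ℝ, 1 ≤ R0 ∧ ∀ (R : ℝ) (G : V d → V d →L[ℝ] V d), R0 ≤ R → Cls Γ K k B G →
  ∀ (Λ : Subgroup Γ) (F : Set (V d)) (T : Set Γ), Dm Λ F T → ∀ (φ : V d → ℂ) (v : YS Γ d → ℂ), FH Λ F φ → FP Λ T v → ∫ y in DT d T ∩ GW Γ G r0 2 R, QF G χ ch ζ R φ y * conj (v y) ∂mY Γ d = ∫ z in F, φ z * conj (Qs G r0 χ ch ζ R v z) ∂mv G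

/-! ## 5. Near isometry -/

/-- **AQFT** (short; from AMVI) the coefficients are a Fourier transform. Substitution `z = γ w` (measure preserving homeomorphism), `mv = dens dw`: `QF φ (γ, (x, ξ)) = ∫ φ(γ w) χ(x) cR b0(w - x) dens(w)^(-1/2) e^(-iR⟪ξ, w - x⟫) dens(w) dw`. -/
def AQFT_stmt : Prop := ∀ (d : ℕ) (Γ : Type) [Group Γ] [MulAction Γ (V d)] (K : Set (V d)) (k : ℝ) (B : ℕ → ℕ → ℝ) (G : V d → V d →L[ℝ] V d) (χ : V d → ℝ) (ch : ℝ → ℝ) (ζ R : ℝ) (φ : V d → ℂ) (γ : Γ), FdK Γ K → Cls Γ K k B G →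
  (∀ x ξ : V d, QF G χ ch ζ R φ ((γ, (x, ξ)) : YS Γ d) = ((cR d ch ζ R * χ x : ℝ) : ℂ) * Complex.exp (((R * ⟪ξ, x⟫_ℝ : ℝ) : ℂ) * Complex.I) * FTR R (fun w => uf G φ γ w * ((b0 ch ζ R (w - x) : ℝ) : ℂ)) ξ) ∧
  (Continuous φ → Continuous (uf G φ γ)) ∧ (ContDiff ℝ 2 φ → ContDiff ℝ 2 (uf G φ γ)) ∧ ∀ w, ‖uf G φ γ w‖ ^ 2 = ‖φ (γ • w)‖ ^ 2 * dens G w

/-- **AISP** (short-medium; from AQFT, APLD, ABRD, AMVI) Plancherel for fixed chart and base point: `cR² (2π/R)^d = bR⁻¹` (ABRD). -/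
def AISP_stmt : Prop := ∀ (d : ℕ) (Γ : Type) [Group Γ] [MulAction Γ (V d)] (K : Set (V d)) (k : ℝ) (B : ℕ → ℕ → ℝ) (ch : ℝ → ℝ) (ζ : ℝ), FdK Γ K → CH ch → 0 < ζ → ζ ≤ 1 / 8 → ∃ R0 : ℝ, 1 ≤ R0 ∧ ∀ (R : ℝ) (G : V d → V d →L[ℝ] V d), R0 ≤ R → Cls Γ K k B G →
  ∀ (χ : V d → ℝ) (φ : V d → ℂ) (γ : Γ) (x : V d), Continuous φ → ∫⁻ ξ : V d, ‖QF G χ ch ζ R φ ((γ, (x, ξ)) : YS Γ d)‖ₑ ^ 2 =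
    ENNReal.ofReal (χ x ^ 2 * (bR d ch ζ R)⁻¹) * ∫⁻ w, ENNReal.ofReal (b0 ch ζ R (w - x) ^ 2) * ‖φ (γ • w)‖ₑ ^ 2 ∂mv G

/-- **AWSM** (the weight; short-medium; PURE up to ABRD, ANCH). `m(w) = bR⁻¹ ∫ χ(x)² b0(w - x)² dx`; `χ²` is Lipschitz (smooth, compact support), `b0` is supported in `‖v‖ ≤ ρ = R^(-1/2+ζ)`, `∫ b0² = bR`: `|m(w) - χ(w)²| ≤ L ρ`, and both vanish for `‖w‖ > r0`. At most `N` charts contribute to `∑_γ (m - χ²)(γ⁻¹ z)` (ANCH),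
`∑_γ χ(γ⁻¹ z)² = 1` (PU), `N L ρ ≤ R^(-1/4)` for `R ≥ R0` (`ρ ≤ R^(-3/8)`). -/
def AWSM_stmt : Prop := ∀ (d : ℕ) (Γ : Type) [Group Γ] [MulAction Γ (V d)] (K : Set (V d)) (r0 : ℝ) (χ : V d → ℝ) (ch : ℝ → ℝ) (ζ : ℝ), FdK Γ K → PU Γ r0 χ → CH ch → 0 < ζ → ζ ≤ 1 / 8 → ∃ R0 : ℝ, 1 ≤ R0 ∧ ∀ R : ℝ, R0 ≤ R → ∀ z : V d,
  ENNReal.ofReal (1 - R ^ (-(1 / 4) : ℝ)) ≤ ∑' γ : Γ, ∫⁻ x : V d, ENNReal.ofReal (χ x ^ 2 * (bR d ch ζ R)⁻¹) * ENNReal.ofReal (b0 ch ζ R (γ⁻¹ • z - x) ^ 2) ∧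
  ∑' γ : Γ, ∫⁻ x : V d, ENNReal.ofReal (χ x ^ 2 * (bR d ch ζ R)⁻¹) * ENNReal.ofReal (b0 ch ζ R (γ⁻¹ • z - x) ^ 2) ≤ ENNReal.ofReal (1 + R ^ (-(1 / 4) : ℝ))

/-- **APOL** (polarisation; short-medium; from AISD, AQSB, AFHB). `q(φ) = ∫_(DT) |QF φ|² - nn φ`, `|q(φ)| ≤ ε nn φ`, `ε = R^(-1/4)` (AISD); `B(φ, u) = ∫ QF φ conj QF u - ∫ φ conj u`: `4 Re B(φ, u) = q(φ + u) - q(φ - u)`, so `|Re B(φ, u)| ≤ (ε/2)(nn φ + nn u)`; replace `φ, u` by `t φ, u/t`: `≤ ε (nn φ)^(1/2) (nn u)^(1/2)`; `Im B(φ, u) = Re B(-iφ, u)`.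
(`QF` is linear on `FH`; `∫⁻ < ⊤` gives square integrability.) -/
def APOL_stmt : Prop := ∀ (d : ℕ) (Γ : Type) [Group Γ] [MulAction Γ (V d)] (K : Set (V d)) (k : ℝ) (B : ℕ → ℕ → ℝ) (r0 : ℝ) (χ : V d → ℝ) (ch : ℝ → ℝ) (ζ : ℝ), FdK Γ K → PU Γ r0 χ → CH ch → 0 < ζ → ζ ≤ 1 / 8 → ∃ R0 : ℝ, 1 ≤ R0 ∧ ∀ (R : ℝ) (G : V d → V d →L[ℝ] V d), R0 ≤ R → Cls Γ K k B G →
  ∀ (Λ : Subgroup Γ) (F : Set (V d)) (T : Set Γ), Dm Λ F T → (∀ φ : V d → ℂ, FH Λ F φ → MemLp (QF (Γ := Γ) G χ ch ζ R φ) 2 ((mY Γ d).restrict (DT d T))) ∧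
  ∀ φ u : V d → ℂ, FH Λ F φ → FH Λ F u → IntegrableOn (fun y : YS Γ d => QF G χ ch ζ R φ y * conj (QF G χ ch ζ R u y)) (DT d T) (mY Γ d) ∧
    ‖(∫ y in DT d T, QF G χ ch ζ R φ y * conj (QF G χ ch ζ R u y) ∂mY Γ d) - ∫ z in F, φ z * conj (u z) ∂mv G‖ ≤ 2 * R ^ (-(1 / 4) : ℝ) * (Real.sqrt (nn G F φ) * Real.sqrt (nn G F u))

/-- **AQAX** (short-medium; from AISD, AQSD, AFHB, ADMD) the first and the third inequality of AQAD. First: the window is a part of `DT`. Second (duality): `nn (Qs v) = ∫_F Qs v conj (Qs v) = ∫_(DT ∩ GW) QF (Qs v) conj v ≤ ((1 + ε) nn (Qs v))^(1/2) (nP v)^(1/2)` (Cauchy-Schwarz, the first inequality for `φ = Qs v ∈ FH`). -/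
def AQAX_stmt : Prop := ∀ (d : ℕ) (Γ : Type) [Group Γ] [MulAction Γ (V d)] (K : Set (V d)) (k : ℝ) (B : ℕ → ℕ → ℝ) (r0 : ℝ) (χ : V d → ℝ) (ch : ℝ → ℝ) (ζ : ℝ), FdK Γ K → PU Γ r0 χ → CH ch → 0 < ζ → ζ ≤ 1 / 8 → ∃ R0 : ℝ, 1 ≤ R0 ∧ ∀ (R : ℝ) (G : V d → V d →L[ℝ] V d), R0 ≤ R → Cls Γ K k B G →
  ∀ (Λ : Subgroup Γ) (F : Set (V d)) (T : Set Γ), Dm Λ F T → (∀ φ : V d → ℂ, FH Λ F φ → nP G r0 T 2 R (QF G χ ch ζ R φ) ≤ (1 + R ^ (-(1 / 4) : ℝ)) * nn G F φ) ∧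
  ∀ v : YS Γ d → ℂ, FP Λ T v → nn G F (Qs G r0 χ ch ζ R v) ≤ (1 + R ^ (-(1 / 4) : ℝ)) * nP G r0 T 2 R v

/-! ## 6. Energy localisation -/

/-- **AFHL** (short; from AMVI, AHLD) the Laplacian of a `C²` function in `FH` is in `FH`. Continuity: definition of `lap` (`dens`, `IG` are smooth: AMVI, AHLD). Invariance: last part of AMVI (`φ(κ z) = φ(z)` as functions of `z`). Support: `F` bounded; or `F = univ`: `lap φ z ≠ 0` implies `z ∈ closure (support φ)`, contained in the closed ball. -/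
def AFHL_stmt : Prop := ∀ (d : ℕ) (Γ : Type) [Group Γ] [MulAction Γ (V d)] (K : Set (V d)) (k : ℝ) (B : ℕ → ℕ → ℝ) (G : V d → V d →L[ℝ] V d), FdK Γ K → Cls Γ K k B G → ∀ (Λ : Subgroup Γ) (F : Set (V d)) (T : Set Γ), Dm Λ F T →
  ∀ φ : V d → ℂ, FH Λ F φ → ContDiff ℝ 2 φ → FH Λ F (lap G φ)

/-- **AEBD** (short-medium; from AHLD, ABRG, ABRD) pointwise bounds, `h = IG G`. `‖x‖ ≤ r0`; everything vanishes for `‖w - x‖ > ρ = R^(-1/2+ζ)`, `ρ ≤ 1/4`; so `‖w‖ ≤ r0 + 1` and AHLD with `r = r0 + 1`, `n = 1` bounds `h`, `Dh`, `VG` by `C`. `LHO h b = ∑_i (D²b(e_i, h e_i) + Db((∂_i h) e_i))`; `‖h(x) - h(w)‖ ≤ C ‖x - w‖` (convex ball).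
The derivatives of `y ↦ b0(y - x)` at `w` are those of `b0` at `w - x`. -/
def AEBD_stmt : Prop := ∀ (d : ℕ) (Γ : Type) [Group Γ] [MulAction Γ (V d)] (K : Set (V d)) (k : ℝ) (B : ℕ → ℕ → ℝ) (r0 : ℝ) (ch : ℝ → ℝ) (ζ : ℝ), FdK Γ K → CH ch → 0 < ζ → ζ ≤ 1 / 8 → ∃ C R0 : ℝ, 1 ≤ C ∧ 1 ≤ R0 ∧ ∀ (R : ℝ) (G : V d → V d →L[ℝ] V d), R0 ≤ R → Cls Γ K k B G → ∀ x w : V d, ‖x‖ ≤ r0 →
  |LHO (IG G) (fun y => b0 ch ζ R (y - x)) w| ≤ C * R ^ (1 + 3 * ζ) * gk ζ R (w - x) ∧ |b0 ch ζ R (w - x)| * ‖VG G w‖ ≤ C * gk ζ R (w - x) ∧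
  (∀ i : Fin d, |2 * fderiv ℝ (fun y => b0 ch ζ R (y - x)) w (IG G w (EuclideanSpace.single i 1)) + b0 ch ζ R (w - x) * dvh (IG G) (EuclideanSpace.single i 1) w| ≤ C * R ^ (1 / 2 + 2 * ζ) * gk ζ R (w - x)) ∧
  ∀ i j : Fin d, |b0 ch ζ R (w - x) * ⟪(IG G x - IG G w) (EuclideanSpace.single i 1), (EuclideanSpace.single j 1 : V d)⟫_ℝ| ≤ C * R ^ (-(1 / 2) + ζ) * gk ζ R (w - x)

/-- **AEFX** (energy localisation for a fixed chart and base point; medium; from AEID, AEGN, AEBD, AQFT, AMVI, AHLD, ABRD). If `χ(x) = 0` both sides vanish; otherwise `‖x‖ ≤ r0`. `u = uf G φ γ`, `b = b0(· - x)`, `h = IG G`, `h0 = h(x)`, `θ(ξ) = Ep(x, ξ) - E0`, `2 R² θ(ξ) = R² ⟪h0 ξ, ξ⟫ - R² (1 + 2 E0)`.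
AHLD for `u` (`u dens^(-1/2) = φ ∘ γ`, `lap (φ ∘ γ) = (lap φ) ∘ γ` by AMVI): `LHO h u = dens^(1/2) (lap φ)(γ w) + VG u`. AEID becomes the hypothesis of AEGN with `W = u b`, `A = -b dens^(1/2) ψ(γ w)`, `A0 = u LHO h b - b VG u`, `A1 i = u (2 Db(h e_i) + b dvh h e_i)`, `A2 i j = u b ⟪(h0 - h) e_i, e_j⟫`, `ψ = lap φ + R² (1 + 2 E0) φ`.
AEBD: `|A| ≤ gk dens^(1/2) |ψ(γ w)|`, `|A0| ≤ 2 C R^(1+3ζ) gk |u|`, `|A1| ≤ C R^(1/2+2ζ) gk |u|`, `|A2| ≤ C R^(-1/2+ζ) gk |u|`; so the right side of AEGN is at most `C' (2π/R)^d ∫ gk² dens (R^(-4) |ψ(γ w)|² + R^(-1+4ζ) |φ(γ w)|²)`; times `cR² χ(x)²`, `cR² (2π/R)^d = bR⁻¹`. -/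
def AEFX_stmt : Prop := ∀ (d : ℕ) (Γ : Type) [Group Γ] [MulAction Γ (V d)] (K : Set (V d)) (k : ℝ) (B : ℕ → ℕ → ℝ) (r0 : ℝ) (χ : V d → ℝ) (ch : ℝ → ℝ) (ζ : ℝ), FdK Γ K → PU Γ r0 χ → CH ch → 0 < ζ → ζ ≤ 1 / 8 → ∃ C R0 : ℝ, 1 ≤ C ∧ 1 ≤ R0 ∧ ∀ (R : ℝ) (G : V d → V d →L[ℝ] V d), R0 ≤ R → Cls Γ K k B G →
  ∀ (φ : V d → ℂ) (E0 : ℝ) (γ : Γ) (x : V d), ContDiff ℝ 2 φ →
    ∫⁻ ξ : V d, ENNReal.ofReal ((Ep G (x, ξ) - E0) ^ 2 / (1 + ‖ξ‖ ^ 2) ^ 2) * ‖QF G χ ch ζ R φ ((γ, (x, ξ)) : YS Γ d)‖ₑ ^ 2 ≤ ENNReal.ofReal (C * (χ x ^ 2 * (bR d ch ζ R)⁻¹)) *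
      ∫⁻ w, ENNReal.ofReal (gk ζ R (w - x) ^ 2) * (ENNReal.ofReal (R ^ (-4 : ℝ)) * ‖lap G φ (γ • w) + ((R ^ 2 * (1 + 2 * E0) : ℝ) : ℂ) * φ (γ • w)‖ₑ ^ 2 + ENNReal.ofReal (R ^ (-1 + 4 * ζ)) * ‖φ (γ • w)‖ₑ ^ 2) ∂mv G

/-- **AELA** (the first part of AELD; medium; from AEFX, AUNK, ANCH, AMYS, ABRE, AQSB, AFHB, AFHL, AMVI). `∫⁻_(DT) = ∑_(γ ∈ T) ∫_x ∫_ξ` (AMYS), AEFX, then AUNK with `c = C χ² bR⁻¹`, `k0 = gk²`, `f = R^(-4) |ψ|² + R^(-1+4ζ) |φ|²` (invariant under `Λ`): `≤ ∫_F (∑_γ M(γ⁻¹ z)) f`, `M(w) = ∫ c(x) k0(w - x) dx ≤ C bR⁻¹ (π/R)^(d/2) ≤ 2 C` (ABRE),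
`M(w) = 0` for `‖w‖ > r0`; ANCH: `∑_γ M ≤ 2 C N ≤ R^(4ζ)` for `R ≥ R0`. `ψ ∈ FH` (AFHL, AFHB): `∫⁻_F |ψ|² = ofReal (nn ψ)`. -/
def AELA_stmt : Prop := ∀ (d : ℕ) (Γ : Type) [Group Γ] [MulAction Γ (V d)] (K : Set (V d)) (k : ℝ) (B : ℕ → ℕ → ℝ) (r0 : ℝ) (χ : V d → ℝ) (ch : ℝ → ℝ) (ζ : ℝ), FdK Γ K → PU Γ r0 χ → CH ch → 0 < ζ → ζ ≤ 1 / 8 → ∃ R0 : ℝ, 1 ≤ R0 ∧ ∀ (R : ℝ) (G : V d → V d →L[ℝ] V d), R0 ≤ R → Cls Γ K k B G →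
  ∀ (Λ : Subgroup Γ) (F : Set (V d)) (T : Set Γ), Dm Λ F T → ∀ (φ : V d → ℂ) (E0 : ℝ), FH Λ F φ → ContDiff ℝ 2 φ →
    ∫⁻ y in DT d T, ENNReal.ofReal ((Ep G y.2 - E0) ^ 2 / (1 + ‖y.2.2‖ ^ 2) ^ 2) * ‖QF G χ ch ζ R φ y‖ₑ ^ 2 ∂mY Γ d ≤
      ENNReal.ofReal (R ^ (8 * ζ) * (R ^ (-4 : ℝ) * nn G F (fun z => lap G φ z + ((R ^ 2 * (1 + 2 * E0) : ℝ) : ℂ) * φ z) + R ^ (-1 : ℝ) * nn G F φ))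

/-- **AEWT** (the weight; short; from AHLD). `‖ξ‖² ≤ C ⟪IG x ξ, ξ⟫` (AHLD), `Ep - E0 ≥ ‖ξ‖²/(2C) - 1`. If `‖ξ‖² ≥ 4C`: `Ep - E0 ≥ ‖ξ‖²/(4C)`, the weight is `≥ (‖ξ‖²/(4C))²/(2‖ξ‖²)² = 1/(64 C²)`. If `‖ξ‖² ≤ 4C`: the weight is `≥ R^(-1/2)/(256 (1 + 4C)²)`. -/
def AEWT_stmt : Prop := ∀ (d : ℕ) (Γ : Type) [Group Γ] [MulAction Γ (V d)] (K : Set (V d)) (k : ℝ) (B : ℕ → ℕ → ℝ) (r : ℝ), FdK Γ K → ∃ C : ℝ, 1 ≤ C ∧ ∀ (R : ℝ) (G : V d → V d →L[ℝ] V d), 1 ≤ R → Cls Γ K k B G →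
  ∀ (x ξ : V d) (E0 : ℝ), ‖x‖ ≤ r → |E0| ≤ 1 / 16 → R ^ (-(1 / 4) : ℝ) / 16 ≤ |Ep G (x, ξ) - E0| → R ^ (-(1 / 2) : ℝ) ≤ C * ((Ep G (x, ξ) - E0) ^ 2 / (1 + ‖ξ‖ ^ 2) ^ 2)

end

end Pool.Agent.VD
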